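import Pool.Agent.V5helper52.PT.Pair
import Pool.Agent.V5helper52.SF.Compl

/-!
# The complement of a closed subscheme given by finitely many equations
-/

set_option autoImplicit false

open CategoryTheory AlgebraicGeometry MvPolynomial Pool.Agent.Y116.UV Pool.Agent.V5helper52.SF
  Pool.Agent.Z125.UN

namespace Pool.Agent.V5helper52.PT

lemma compl_eq {A : Type} [CommRing A] {r : ℕ} (F : Fin r → A) :
    {x : PrimeSpectrum A | ∃ i, F i ∉ x.asIdeal} =
      {x : PrimeSpectrum A | ∃ g ∈ Ideal.span (Set.range F), g ∉ x.asIdeal} := by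
  ext x
  constructor
  · rintro ⟨i, hi⟩
    exact ⟨F i, Ideal.subset_span ⟨i, rfl⟩, hi⟩
  · rintro ⟨g, hg, hx⟩
    by_contra h
    refine hx ((Ideal.span_le.mpr ?_) hg)
    rintro _ ⟨i, rfl⟩
    by_contra hi
    exact h ⟨i, hi⟩

lemma triple_fam {k : Type} [Field k] {A : Type} [CommRing A] [Algebra k A] {r : ℕ} (F : Fin r → A)
    (U : Sch k) (j : U ⟶ aff k A) (hj : IsOpenImmersion j.left)
    (hr : Set.range j.left = {x : PrimeSpectrum A | ∃ i, F i ∉ x.asIdeal}) :
    IsTriple (affMap (Ideal.Quotient.mkₐ k (Ideal.span (Set.range F)))) j :=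
  triple_ideal _ U j hj (hr.trans (compl_eq F))

end Pool.Agent.V5helper52.PT
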