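import Pool.Agent.V5helper52.PT.Plane
import Pool.Agent.V5helper6.PT.CONE
import Pool.Agent.V5helper65.PT.LAG
import Pool.Agent.V5helper55.PT.EXS
import Pool.Agent.V5helper23.PT.RED
import Pool.Agent.V5helper86.PT.MERGE

/-!
# Systems of polynomials with few terms
-/

set_option autoImplicit false
set_option maxHeartbeats 400000

open CategoryTheory AlgebraicGeometry MvPolynomial Pool.Agent.Y116.UV Pool.Agent.V5helper52.SF
  Pool.Agent.V5helper52.TR Pool.Agent.V5helper52.FW Pool.Agent.Z125.UN

namespace Pool.Agent.V5helper52.PT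

variable {k : Type} [Field k] {σ : Type} [Fintype σ] [DecidableEq σ]

/-- the exponents of several polynomials -/
def fex {κ : Type} (F : κ → MvPolynomial σ k) : Set (σ → ℚ) := ⋃ l, expo (F l)

lemma gs_fam {n : ℕ} {κ : Type} (T : Finset σ) (F : κ → MvPolynomial σ k) (hf : Gs n (fex F)) :
    Gs n (qv '' lx fun l => th k T (F l)) := by
  refine Gs.of_image (ez T) (ez_inj T) (hf.mono ?_)
  rintro _ ⟨_, ⟨m', hm', rfl⟩, rfl⟩
  obtain ⟨l, hl⟩ := Set.mem_iUnion.mp hm'
  obtain ⟨m, hm, h1, h2⟩ := th_supp T (F l) m' hl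
  refine Set.mem_iUnion.mpr ⟨l, m, hm, ?_⟩
  funext i
  change (m i : ℚ) = if h : i ∈ T then ((m' ⟨i, h⟩ : ℤ) : ℚ) else 0
  by_cases h : i ∈ T
  · rw [dif_pos h, h2 ⟨i, h⟩]
    rfl
  · rw [dif_neg h]
    by_contra h3
    exact h (h1 i fun h4 => h3 (by rw [h4]; rfl))

lemma map_fam {κ : Type} (T : Finset σ) (F : κ → MvPolynomial σ k) :
    (Ideal.span (Set.range F)).map (th k T) = Ideal.span (Set.range fun l => th k T (F l)) := by
  rw [Ideal.map_span, ← Set.range_comp]
  rfl

variable {P : Sch k → Prop} (hP : Cls True P) {n : ℕ}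
  (hn : ∀ (A : Type) [CommRing A] [Algebra k A] [Algebra.FiniteType k A], ringKrullDim A ≤ n →
    P (aff k A))

include hP hn

/-- several polynomials with exponents in a subspace of small dimension -/
theorem p_plane {κ : Type} [Finite κ] (F : κ → MvPolynomial σ k)
    (hF : Module.finrank ℚ (vectorSpan ℚ (fex F)) ≤ n + 1) :
    P (aff k (MvPolynomial σ k ⧸ Ideal.span (Set.range F))) := by
  refine p_strata (loc_of_bnd hP.toBnd) _ fun T => ?_
  rw [map_fam]
  refine lat_plane_fam hP hn _ ?_ (Set.finite_iUnion fun l => Finset.finite_toSet _)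
  have h1 : (vectorSpan ℚ (qv '' lx fun l => th k T (F l))).map (ez T) ≤ vectorSpan ℚ (fex F) := by
    have h2 := AffineMap.map_vectorSpan (ez T).toAffineMap (s := qv '' lx fun l => th k T (F l))
    refine (le_of_eq h2).trans (vectorSpan_mono ℚ ?_)
    rintro _ ⟨_, ⟨m', hm', rfl⟩, rfl⟩
    obtain ⟨l, hl⟩ := Set.mem_iUnion.mp hm'
    obtain ⟨m, hm, h1, h2⟩ := th_supp T (F l) m' hl
    refine Set.mem_iUnion.mpr ⟨l, m, hm, ?_⟩
    funext i
    change (m i : ℚ) = if h : i ∈ T then ((m' ⟨i, h⟩ : ℤ) : ℚ) else 0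
    by_cases h : i ∈ T
    · rw [dif_pos h, h2 ⟨i, h⟩]
      rfl
    · rw [dif_neg h]
      by_contra h3
      exact h (h1 i fun h4 => h3 (by rw [h4]; rfl))
  refine le_trans ?_ hF
  rw [(Submodule.equivMapOfInjective (ez T) (ez_inj T) _).finrank_eq]
  exact Submodule.finrank_mono h1

/-- two polynomials with independent exponents, or with exponents in a small subspace -/
theorem p_pair (F : Bool → MvPolynomial σ k) (hF : Gs n (fex F)) :
    P (aff k (MvPolynomial σ k ⧸ Ideal.span (Set.range F))) := by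
  classical
  refine p_strata (loc_of_bnd hP.toBnd) _ fun T => ?_
  rw [map_fam]
  rcases gs_fam T F hF with h | h
  · let g : Bool → AddMonoidAlgebra k (T → ℤ) := fun l => th k T (F l)
    let S : Finset (T → ℤ) := (g false).coeff.support ∪ (g true).coeff.support
    refine lat_pair hP Pool.Agent.V5helper55.PT.EXS.t_EXS Pool.Agent.V5helper65.PT.t_LAG
      Pool.Agent.V5helper6.PT.t_CONE Pool.Agent.V5helper86.PT.t_MERGE Pool.Agent.V5helper23.PT.t_RED
      g S (fun l => ?_) ?_
    · cases l
      · exact Finset.subset_union_left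
      · exact Finset.subset_union_right
    · have hS : ∀ m ∈ S, m ∈ lx g := by
        intro m hm
        rcases Finset.mem_union.mp hm with h1 | h1
        · exact Set.mem_iUnion.mpr ⟨false, h1⟩
        · exact Set.mem_iUnion.mpr ⟨true, h1⟩
      let u : S ↪ (qv '' lx g) :=
        ⟨fun m => ⟨qv m.1, m.1, hS m.1 m.2, rfl⟩, fun x y hxy =>
          Subtype.ext (qv_inj (congrArg Subtype.val hxy))⟩
      exact h.comp_embedding u
  · exact lat_plane_fam hP hn _ h (Set.finite_iUnion fun l => Finset.finite_toSet _)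

/-- **Systems of polynomials with few terms.** -/
theorem p_system {r : ℕ} (F : Fin r → MvPolynomial σ k)
    (hF : (r ≤ 2 ∧ ((Finset.univ.biUnion fun l => (F l).support).card ≤ n + 3 ∨
      AffineIndependent ℚ (fun (m : (Finset.univ.biUnion fun l => (F l).support : Finset (σ →₀ ℕ)))
        (i : σ) => (m.1 i : ℚ)))) ∨
      Module.finrank ℚ (vectorSpan ℚ (Set.range
        fun (m : (Finset.univ.biUnion fun l => (F l).support : Finset (σ →₀ ℕ))) (i : σ) =>
          (m.1 i : ℚ))) ≤ n + 1) :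
    P (aff k (MvPolynomial σ k ⧸ Ideal.span (Set.range F))) := by
  classical
  let S : Finset (σ →₀ ℕ) := Finset.univ.biUnion fun l => (F l).support
  have hr : Set.range (fun (m : S) (i : σ) => (m.1 i : ℚ)) = fex F := by
    ext x
    constructor
    · rintro ⟨m, rfl⟩
      obtain ⟨l, _, hl⟩ := Finset.mem_biUnion.mp m.2
      exact Set.mem_iUnion.mpr ⟨l, m.1, hl, rfl⟩
    · intro hx
      obtain ⟨l, m, hm, rfl⟩ := Set.mem_iUnion.mp hx
      exact ⟨⟨m, Finset.mem_biUnion.mpr ⟨l, Finset.mem_univ _, hm⟩⟩, rfl⟩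
  have hS : fex F = (fun (m : σ →₀ ℕ) (i : σ) => (m i : ℚ)) '' (S : Set (σ →₀ ℕ)) := by
    rw [← hr]
    ext x
    constructor
    · rintro ⟨m, rfl⟩
      exact ⟨m.1, m.2, rfl⟩
    · rintro ⟨m, hm, rfl⟩
      exact ⟨⟨m, hm⟩, rfl⟩
  rcases hF with ⟨h2, hF⟩ | hF
  · have hG : Gs n (fex F) := by
      rcases hF with hF | hF
      · refine gs_card (by rw [hS]; exact (Finset.finite_toSet _).image _) ?_
        rw [hS]
        refine (Set.ncard_image_le (Finset.finite_toSet _)).trans ?_
        rw [Set.ncard_coe_finset]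
        exact hF
      · have h3 := hF.range
        rw [hr] at h3
        exact Or.inl h3
    let G : Bool → MvPolynomial σ k := fun b =>
      match b with
      | false => if h : 0 < r then F ⟨0, h⟩ else 0
      | true => if h : 1 < r then F ⟨1, h⟩ else 0
    have hGe : ∀ b, G b = 0 ∨ ∃ l, G b = F l := by
      intro b
      cases b
      · change (if h : 0 < r then F ⟨0, h⟩ else 0) = 0 ∨ ∃ l, (if h : 0 < r then F ⟨0, h⟩ else 0) = F l
        by_cases h : 0 < r
        · exact Or.inr ⟨⟨0, h⟩, by rw [dif_pos h]⟩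
        · exact Or.inl (by rw [dif_neg h])
      · change (if h : 1 < r then F ⟨1, h⟩ else 0) = 0 ∨ ∃ l, (if h : 1 < r then F ⟨1, h⟩ else 0) = F l
        by_cases h : 1 < r
        · exact Or.inr ⟨⟨1, h⟩, by rw [dif_pos h]⟩
        · exact Or.inl (by rw [dif_neg h])
    have hI : Ideal.span (Set.range F) = Ideal.span (Set.range G) := by
      apply le_antisymm
      · rw [Ideal.span_le]
        rintro _ ⟨⟨l, hl⟩, rfl⟩
        have h4 : l = 0 ∨ l = 1 := by omega
        rcases h4 with rfl | rfl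
        · refine Ideal.subset_span ⟨false, ?_⟩
          change (if h : 0 < r then F ⟨0, h⟩ else 0) = _
          rw [dif_pos hl]
        · refine Ideal.subset_span ⟨true, ?_⟩
          change (if h : 1 < r then F ⟨1, h⟩ else 0) = _
          rw [dif_pos hl]
      · rw [Ideal.span_le]
        rintro _ ⟨b, rfl⟩
        rcases hGe b with h | ⟨l, h⟩
        · rw [h]
          exact zero_mem _
        · rw [h]
          exact Ideal.subset_span ⟨l, rfl⟩
    rw [hI]
    refine p_pair hP hn G (hG.mono ?_)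
    intro x hx
    obtain ⟨b, hb⟩ := Set.mem_iUnion.mp hx
    rcases hGe b with h | ⟨l, h⟩
    · rw [h] at hb
      obtain ⟨m, hm, _⟩ := hb
      exact absurd hm (by simp)
    · rw [h] at hb
      exact Set.mem_iUnion.mpr ⟨l, hb⟩
  · refine p_plane hP hn F ?_
    rw [← hr]
    exact hF

end Pool.Agent.V5helper52.PT
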