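import Pool.Agent.V5helper52.PT.Hom

/-!
# Two homogeneous equations
-/

set_option autoImplicit false
set_option maxHeartbeats 400000

open CategoryTheory AlgebraicGeometry MvPolynomial Pool.Agent.Y116.UV Pool.Agent.V5helper52.SF
  Pool.Agent.V5helper52.TR Pool.Agent.V5helper52.FW Pool.Agent.Z125.UN

namespace Pool.Agent.V5helper52.PT

variable {k : Type} [Field k] {P : Sch k → Prop} (hP : Cls True P)

include hP

/-- the generic case -/
theorem gen_case (exs : S_EXS) (lag : S_LAG) (cone : S_CONE) {E : ℕ} (hE : 0 < E) {τ : Type}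
    [Fintype τ] [DecidableEq τ] (M : Bool → Option τ → k)
    (hnp : ∀ i j : Option τ, i ≠ j → ∀ lam : k, ¬ ∀ l, M l i = lam * M l j) {n : ℕ}
    (hcard : Fintype.card τ = n + 2) : St P (sysI E M) (∏ j, X j) := by
  obtain ⟨a0, ha0⟩ : ∃ a0, a0 = M false none := ⟨_, rfl⟩
  obtain ⟨b0, hb0⟩ : ∃ b0, b0 = M true none := ⟨_, rfl⟩
  obtain ⟨a, ha⟩ : ∃ a : τ → k, ∀ j, a j = M false (some j) := ⟨_, fun _ => rfl⟩
  obtain ⟨b, hb⟩ : ∃ b : τ → k, ∀ j, b j = M true (some j) := ⟨_, fun _ => rfl⟩
  have hne : Nonempty τ := Fintype.card_pos_iff.mp (by omega)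
  obtain ⟨c, d, hcd⟩ : ∃ c d : k, c * a0 + d * b0 = -1 := by
    by_cases h1 : a0 = 0
    · have h2 : b0 ≠ 0 := fun h2 => by
        obtain ⟨t⟩ := hne
        refine hnp none (some t) (by simp) 0 fun l => ?_
        rw [zero_mul]
        cases l
        · rw [← ha0, h1]
        · rw [← hb0, h2]
      exact ⟨0, -b0⁻¹, by rw [zero_mul, zero_add, neg_mul, inv_mul_cancel₀ h2]⟩
    · exact ⟨-a0⁻¹, 0, by rw [zero_mul, add_zero, neg_mul, inv_mul_cancel₀ h1]⟩
  obtain ⟨A, hA⟩ : ∃ A : τ → k, ∀ j, A j = b0 * a j + (-a0) * b j := ⟨_, fun _ => rfl⟩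
  obtain ⟨B, hB⟩ : ∃ B : τ → k, ∀ j, B j = c * a j + d * b j := ⟨_, fun _ => rfl⟩
  have ha' : ∀ j, a j = -(a0 * B j + d * A j) := fun j => by
    rw [hA, hB]
    linear_combination (a j) * hcd
  have hb' : ∀ j, b j = -(b0 * B j - c * A j) := fun j => by
    rw [hA, hB]
    linear_combination (b j) * hcd
  have hA0 : ∀ j, A j ≠ 0 := fun j h1 => by
    refine hnp (some j) none (by simp) (-(B j)) fun l => ?_
    cases l
    · rw [← ha, ← ha0, ha', h1]
      ring
    · rw [← hb, ← hb0, hb', h1]
      ring
  obtain ⟨q, hq⟩ : ∃ q : τ → k, ∀ j, q j = B j * (A j)⁻¹ := ⟨_, fun _ => rfl⟩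
  have hBq : ∀ j, A j * q j = B j := fun j => by
    rw [hq, mul_comm (B j), ← mul_assoc, mul_inv_cancel₀ (hA0 j), one_mul]
  have hqi : Function.Injective q := by
    intro i j hij
    by_contra hne'
    have hAij : A i = (A i * (A j)⁻¹) * A j := by
      rw [mul_assoc, inv_mul_cancel₀ (hA0 j), mul_one]
    have hBij : B i = (A i * (A j)⁻¹) * B j := by
      rw [← hBq i, ← hBq j, hij]
      rw [mul_assoc (A i), ← mul_assoc (A j)⁻¹, inv_mul_cancel₀ (hA0 j), one_mul]
    refine hnp (some i) (some j) (fun h => hne' (Option.some_injective _ h)) (A i * (A j)⁻¹)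
      fun l => ?_
    cases l
    · rw [← ha, ← ha, ha' i, ha' j]
      linear_combination (-a0) * hBij - d * hAij
    · rw [← hb, ← hb, hb' i, hb' j]
      linear_combination (-b0) * hBij + c * hAij
  obtain ⟨D, _, _, p, w, hS, hft, _⟩ := exs k E hE τ q
    (fun j => (∏ l ∈ Finset.univ.erase j, (q j - q l))⁻¹ * (A j)⁻¹) n
  have h1 := lag k E hE τ A q hA0 hqi n hcard D p w hS
  have hid : sysC E (fun i => M i none) (fun i j => M i (some j)) =
      Ideal.span {Ferm E τ A, Ferm E τ (fun j => A j * q j) - 1} := by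
    have h2 : Ferm E τ A = C b0 * (C a0 + Ferm E τ a) + C (-a0) * (C b0 + Ferm E τ b) := by
      have h3 := ferm_comb (E := E) a b b0 (-a0)
      have h4 : A = fun j => b0 * a j + (-a0) * b j := funext hA
      rw [h4, ← h3, C_neg]
      ring
    have h3 : Ferm E τ (fun j => A j * q j) - 1 =
        C c * (C a0 + Ferm E τ a) + C d * (C b0 + Ferm E τ b) := by
      have h3 := ferm_comb (E := E) a b c d
      have h4 : (fun j => A j * q j) = fun j => c * a j + d * b j :=
        funext fun j => (hBq j).trans (hB j)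
      have h5 : (C c * C a0 + C d * C b0 : MvPolynomial τ k) = -1 := by
        rw [← C_mul, ← C_mul, ← C_add, hcd, C_neg, C_1]
      rw [h4, ← h3]
      linear_combination -h5
    rw [h2, h3, span_pair_comb]
    · have h4 : Set.range (fun i => C (M i none) + Ferm E τ (fun j => M i (some j))) =
          {C a0 + Ferm E τ a, C b0 + Ferm E τ b} := by
        rw [Bool.range_eq, ← ha0, ← hb0, show a = fun j => M false (some j) from funext ha,
          show b = fun j => M true (some j) from funext hb]
      rw [sysC, h4]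
    · have h4 : (C b0 * C d - C (-a0) * C c : MvPolynomial τ k) = -1 := by
        rw [← C_mul, ← C_mul, ← C_sub, show b0 * d - -a0 * c = -1 by
          linear_combination hcd, C_neg, C_1]
      rw [h4]
      exact isUnit_one.neg
  rw [← hid] at h1
  have h2 := cone k E hE Bool τ M D (aeval w) h1
  have hL := loc_of_bnd hP.toBnd
  exact st_of hL h2 (p_laurent hL (p_S hP exs hE q n _ D p w hS))

omit hP in
/-- transport of the universal property -/
lemma isQ_equiv {A A' D : Type} [CommRing A] [Algebra k A] [CommRing A'] [Algebra k A'] [CommRing D]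
    [Algebra k D] {I : Ideal A} {w : A} {q : A →ₐ[k] D} (h : IsQ I w q) (e : A' ≃ₐ[k] A)
    {I' : Ideal A'} {w' : A'} (hI : I = I'.map (e : A' →+* A)) (hw : e w' = w) :
    IsQ I' w' (q.comp (e : A' →ₐ[k] A)) where
  zero a ha := h.zero _ (by rw [hI]; exact Ideal.mem_map_of_mem (e : A' →+* A) ha)
  unit := by
    change IsUnit (q (e w'))
    rw [hw]
    exact h.unit
  lift F _ _ g hg hu := by
    have h1 : ∀ a ∈ I, (g.comp (e.symm : A →ₐ[k] A')) a = 0 := by
      have h2 : I ≤ RingHom.ker (g.comp (e.symm : A →ₐ[k] A')) := by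
        rw [hI, Ideal.map_le_iff_le_comap]
        intro a ha
        change g (e.symm (e a)) = 0
        rw [e.symm_apply_apply]
        exact hg a ha
      exact fun a ha => h2 ha
    obtain ⟨f, hf⟩ := h.lift F _ h1 (by
      change IsUnit (g (e.symm w))
      rw [← hw, e.symm_apply_apply]
      exact hu)
    refine ⟨f, AlgHom.ext fun a => ?_⟩
    have h2 := DFunLike.congr_fun hf (e a)
    change f (q (e a)) = g (e.symm (e a)) at h2
    rw [e.symm_apply_apply] at h2
    exact h2
  ext F _ _ f f' hf := by
    refine h.ext F f f' (AlgHom.ext fun a => ?_)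
    have h2 := DFunLike.congr_fun hf (e.symm a)
    change f (q (e (e.symm a))) = f' (q (e (e.symm a))) at h2
    rw [e.apply_symm_apply] at h2
    exact h2

omit hP in
lemma ferm_ne {E : ℕ} {σ : Type} [Fintype σ] (hE : 0 < E) {c : σ → k} {j : σ} (hj : c j ≠ 0) :
    Ferm E σ c ≠ 0 := by
  classical
  intro h
  have h1 := congrArg (coeff (Finsupp.single j E)) h
  rw [Ferm, coeff_sum, Finset.sum_eq_single j] at h1
  · rw [coeff_C_mul, coeff_X_pow, if_pos rfl, mul_one, coeff_zero] at h1
    exact hj h1
  · intro i _ hij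
    rw [coeff_C_mul, coeff_X_pow, if_neg, mul_zero]
    intro h2
    rw [Finsupp.single_left_inj hE.ne'] at h2
    exact hij h2
  · exact fun h => absurd (Finset.mem_univ _) h

/-- two variables -/
lemma p_two {E : ℕ} (hE : 0 < E) {σ : Type} [Fintype σ] {κ : Type} (hσ : Fintype.card σ = 2)
    (M : κ → σ → k) {i : κ} {j : σ} (hij : M i j ≠ 0) :
    P (aff k (MvPolynomial σ k ⧸ sysI E M)) := by
  let e : Fin 2 ≃ σ := (Fintype.equivFinOfCardEq hσ).symm
  refine p_equiv e M (loc_of_bnd hP.toBnd) (hP.curve _ ?_)
  refine dim_quot (N := 1) _ fun h => ?_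
  have h1 : Ferm E (Fin 2) (fun x => M i (e x)) ∈ sysI E fun i x => M i (e x) :=
    Ideal.subset_span ⟨i, rfl⟩
  rw [h, Ideal.mem_bot] at h1
  refine ferm_ne (j := e.symm j) hE ?_ h1
  rwa [e.apply_symm_apply]

/-- at most one variable -/
lemma p_le_one {E : ℕ} {σ : Type} [Fintype σ] {κ : Type} (hσ : Fintype.card σ ≤ 1)
    (M : κ → σ → k) : P (aff k (MvPolynomial σ k ⧸ sysI E M)) := by
  refine hP.curve _ ((ringKrullDim_quotient_le _).trans ?_)
  rw [MvPolynomial.ringKrullDim_of_isNoetherianRing, ringKrullDim_eq_zero_of_field, zero_add,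
    Nat.card_eq_fintype_card]
  exact_mod_cast hσ

/-- **Two homogeneous equations.** -/
theorem p_hom2 (exs : S_EXS) (lag : S_LAG) (cone : S_CONE) (merge : S_MERGE) {E : ℕ} (hE : 0 < E)
    (N : ℕ) : ∀ (σ : Type) [Fintype σ], Fintype.card σ = N → ∀ M : Bool → σ → k,
    P (aff k (MvPolynomial σ k ⧸ sysI E M)) := by
  have hL := loc_of_bnd hP.toBnd
  induction N using Nat.strong_induction_on with
  | _ N ih =>
    intro σ _ hσ M
    classical
    by_cases h1 : Fintype.card σ ≤ 1
    · exact p_le_one hP h1 M
    by_cases hp : ∃ i j : σ, i ≠ j ∧ ∃ lam : k, ∀ l, M l i = lam * M l j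
    · obtain ⟨i, j, hij, lam, hlam⟩ := hp
      let τ := {x : σ // x ≠ i ∧ x ≠ j}
      let e : Option (Option τ) ≃ σ :=
        { toFun := fun x => x.elim i fun x => x.elim j fun x => x.1
          invFun := fun x => if hi : x = i then none else
            if hj : x = j then some none else some (some ⟨x, hi, hj⟩)
          left_inv := fun x => by
            rcases x with _ | _ | ⟨x, hi, hj⟩
            · simp
            · simp [hij.symm]
            · simp [hi, hj]
          right_inv := fun x => by
            by_cases hi : x = i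
            · simp [hi]
            · by_cases hj : x = j
              · simp [hj, hij.symm]
              · simp [hi, hj] }
      have hτ : Fintype.card τ + 2 = Fintype.card σ := by
        rw [← Fintype.card_congr e, Fintype.card_option, Fintype.card_option]
      refine p_equiv e M hL (merge k P hP E hE Bool τ _ lam hlam ?_ ?_)
      · exact ih _ (by rw [Fintype.card_option]; omega) (Option τ) rfl _
      · exact ih _ (by omega) τ rfl _
    · push Not at hp
      refine p_from_open hE M hL (fun T hT => ?_) ?_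
      · refine ih _ ?_ _ rfl _
        rw [← hσ]
        obtain ⟨x, hx⟩ := hT
        exact Fintype.card_subtype_lt (x := x) (by simpa using hx)
      · by_cases h2 : Fintype.card σ = 2
        · have h3 : ∃ i j, M i j ≠ 0 := by
            by_contra h4
            push Not at h4
            obtain ⟨x, y, hxy⟩ := Fintype.one_lt_card_iff.mp (by omega : 1 < Fintype.card σ)
            obtain ⟨l, hl⟩ := hp x y hxy 0
            exact hl (by rw [h4, zero_mul])
          obtain ⟨i, j, hij⟩ := h3
          refine st_open_stratum hE M hL fun T => ?_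
          rcases T.eq_empty_or_nonempty with rfl | hT
          · let e : {x : σ // ¬ x ∈ (∅ : Finset σ)} ≃ σ :=
              Equiv.subtypeUnivEquiv fun x => Finset.notMem_empty x
            refine p_two hP hE ?_ _ (i := i) (j := e.symm j) hij
            rw [Fintype.card_congr e, h2]
          · refine ih _ ?_ _ rfl _
            rw [← hσ]
            obtain ⟨x, hx⟩ := hT
            exact Fintype.card_subtype_lt (x := x) (by simpa using hx)
        · obtain ⟨n, hn⟩ : ∃ n, Fintype.card σ = n + 3 := ⟨Fintype.card σ - 3, by omega⟩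
          -- the generic case
          obtain ⟨x0⟩ : Nonempty σ := Fintype.card_pos_iff.mp (by omega)
          let τ := {x : σ // x ≠ x0}
          let e : Option τ ≃ σ := Equiv.optionSubtypeNe x0
          have hτ : Fintype.card τ = n + 2 := by
            have h4 := Fintype.card_congr e
            rw [Fintype.card_option] at h4
            omega
          have h4 : St P (sysI E fun l x => M l (e x)) (∏ j, X j) := by
            refine gen_case hP exs lag cone hE _ (fun i j hij lam h5 => ?_) hτ
            obtain ⟨l, hl⟩ := hp (e i) (e j) (fun h6 => hij (e.injective h6)) lam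
            exact hl (h5 l)
          -- transport
          have h5 : IsQ (sysI E M) (∏ j, X j)
              ((qmap k (sysI E fun l x => M l (e x)) (∏ j, X j)).comp
                (renameEquiv k e.symm : MvPolynomial σ k →ₐ[k] MvPolynomial (Option τ) k)) := by
            refine isQ_equiv (isQ_qmap _ _) (renameEquiv k e.symm) ?_ ?_
            · rw [sysI_equiv e.symm (fun l x => M l (e x))]
              simp only [Equiv.apply_symm_apply]
            · rw [renameEquiv_apply, map_prod, ← e.symm.prod_comp]
              exact Finset.prod_congr rfl fun x _ => rename_X _ _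
          exact st_of hL h5 h4

end Pool.Agent.V5helper52.PT
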