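import Pool.Agent.V5helper52.PT.Ind
import Pool.Agent.Z125.UN.Dim

/-!
# Homogeneous systems of two equations
-/

set_option autoImplicit false
set_option maxHeartbeats 400000

open CategoryTheory AlgebraicGeometry MvPolynomial Pool.Agent.Y116.UV Pool.Agent.V5helper52.SF
  Pool.Agent.V5helper52.TR Pool.Agent.V5helper52.FW Pool.Agent.Z125.UN

namespace Pool.Agent.V5helper52.PT

variable {k : Type} [Field k]

section equiv

variable {E : ℕ} {σ σ' κ : Type} [Fintype σ] [Fintype σ'] (e : σ' ≃ σ) (M : κ → σ → k)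

lemma rename_ferm (c : σ → k) :
    renameEquiv k e (Ferm E σ' fun x => c (e x)) = Ferm E σ c := ferm_rename e c

lemma sysI_equiv : sysI E M = (sysI E fun i x => M i (e x)).map
    (renameEquiv k e : MvPolynomial σ' k →+* MvPolynomial σ k) := by
  rw [sysI, sysI, Ideal.map_span, ← Set.range_comp]
  congr 2
  funext i
  exact (rename_ferm e (M i)).symm

variable {P : Sch k → Prop} (hP : Loc P)

include hP

lemma p_equiv (h : P (aff k (MvPolynomial σ' k ⧸ sysI E fun i x => M i (e x)))) :
    P (aff k (MvPolynomial σ k ⧸ sysI E M)) :=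
  iso_alg hP (Ideal.quotientEquivAlg _ _ (renameEquiv k e) (sysI_equiv e M)) h

end equiv

section strata

variable {E : ℕ} (hE : 0 < E) {σ κ : Type} [Fintype σ] [DecidableEq σ] (M : κ → σ → k)

include hE in
lemma rs_sysI (T : Finset σ) : (sysI E M).map (rs k T) =
    sysI E (fun i (x : {j // ¬ j ∈ T}) => M i x.1) := by
  rw [sysI, sysI, Ideal.map_span, ← Set.range_comp]
  congr 2
  funext i
  have h := rs_ferm hE (M i) 0 T
  rw [C_0, sub_zero, C_0, sub_zero] at h
  exact h

variable {P : Sch k → Prop} (hP : Loc P)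

include hP hE

/-- the closed coordinate subspaces -/
lemma st_coord (T : Finset σ)
    (h : P (aff k (MvPolynomial {j // ¬ j ∈ T} k ⧸ sysI E fun i (x : {j // ¬ j ∈ T}) => M i x.1))) :
    St P (sysI E M ⊔ Ideal.span ((X : σ → MvPolynomial σ k) '' (T : Set σ))) 1 := by
  refine st_of hP (isQ_sub (sysI E M) T) ?_
  rw [rs_sysI hE M T]
  exact h

/-- the open stratum of a homogeneous system -/
lemma st_open_stratum (h : ∀ T : Finset σ, P (aff k (MvPolynomial {j // ¬ j ∈ T} k ⧸
    sysI E fun i (x : {j // ¬ j ∈ T}) => M i x.1))) : St P (sysI E M) (∏ j, X j) := by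
  have h1 := st_torus hP (X : σ → MvPolynomial σ k) Finset.univ (sysI E M) 1 fun T _ =>
    st_coord hE M hP T (h T)
  rw [one_mul] at h1
  exact h1

/-- a homogeneous system from the open stratum and the smaller systems -/
lemma p_from_open (h : ∀ T : Finset σ, T.Nonempty → P (aff k (MvPolynomial {j // ¬ j ∈ T} k ⧸
    sysI E fun i (x : {j // ¬ j ∈ T}) => M i x.1))) (h0 : St P (sysI E M) (∏ j, X j)) :
    P (aff k (MvPolynomial σ k ⧸ sysI E M)) := by
  refine st_to hP (isQ_one (sysI E M)) ?_
  refine st_strata hP (X : σ → MvPolynomial σ k) Finset.univ (sysI E M) 1 fun T _ => ?_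
  by_cases hT : T = Finset.univ
  · rw [hT, Finset.sdiff_self, Finset.coe_empty, Set.image_empty, Ideal.span_empty, sup_bot_eq,
      one_mul]
    exact h0
  · refine st_torus hP (X : σ → MvPolynomial σ k) T _ 1 fun T' _ => ?_
    rw [sup_assoc, ← Ideal.span_union, ← Set.image_union, ← Finset.coe_union]
    refine st_coord hE M hP _ (h _ ?_)
    have h1 : (Finset.univ \ T).Nonempty := by
      rw [Finset.sdiff_nonempty]
      exact fun h2 => hT (Finset.univ_subset_iff.mp h2)
    exact h1.mono Finset.subset_union_left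

end strata

/-! ### the generic case -/

lemma span_pair_comb {R : Type} [CommRing R] {f g : R} (a b c d : R) (h : IsUnit (a * d - b * c)) :
    Ideal.span {a * f + b * g, c * f + d * g} = Ideal.span {f, g} := by
  obtain ⟨u, hu⟩ := h
  apply le_antisymm
  · rw [Ideal.span_le]
    rintro x (rfl | rfl)
    · exact Ideal.add_mem _ (Ideal.mul_mem_left _ _ (Ideal.subset_span (Or.inl rfl)))
        (Ideal.mul_mem_left _ _ (Ideal.subset_span (Or.inr rfl)))
    · exact Ideal.add_mem _ (Ideal.mul_mem_left _ _ (Ideal.subset_span (Or.inl rfl)))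
        (Ideal.mul_mem_left _ _ (Ideal.subset_span (Or.inr rfl)))
  · have h1 : a * f + b * g ∈ Ideal.span {a * f + b * g, c * f + d * g} :=
      Ideal.subset_span (Or.inl rfl)
    have h2 : c * f + d * g ∈ Ideal.span {a * f + b * g, c * f + d * g} :=
      Ideal.subset_span (Or.inr rfl)
    have hf : (u : R) * f = d * (a * f + b * g) - b * (c * f + d * g) := by
      rw [hu]
      ring
    have hg : (u : R) * g = a * (c * f + d * g) - c * (a * f + b * g) := by
      rw [hu]
      ring
    rw [Ideal.span_le]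
    rintro x (rfl | rfl)
    · have h3 : (u : R) * x ∈ Ideal.span {a * x + b * g, c * x + d * g} := by
        rw [hf]
        exact Ideal.sub_mem _ (Ideal.mul_mem_left _ _ h1) (Ideal.mul_mem_left _ _ h2)
      exact (Ideal.unit_mul_mem_iff_mem _ u.isUnit).mp h3
    · have h3 : (u : R) * x ∈ Ideal.span {a * f + b * x, c * f + d * x} := by
        rw [hg]
        exact Ideal.sub_mem _ (Ideal.mul_mem_left _ _ h2) (Ideal.mul_mem_left _ _ h1)
      exact (Ideal.unit_mul_mem_iff_mem _ u.isUnit).mp h3

lemma ferm_comb {E : ℕ} {σ : Type} [Fintype σ] (a b : σ → k) (x y : k) :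
    C x * Ferm E σ a + C y * Ferm E σ b = Ferm E σ fun j => x * a j + y * b j := by
  rw [Ferm, Ferm, Ferm, Finset.mul_sum, Finset.mul_sum, ← Finset.sum_add_distrib]
  refine Finset.sum_congr rfl fun j _ => ?_
  rw [C_add, C_mul, C_mul]
  ring

end Pool.Agent.V5helper52.PT
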