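import Pool.Agent.V5helper52.PT.Step

/-!
# The algebras of monic polynomials are covered by products of curves
-/

set_option autoImplicit false
set_option maxHeartbeats 400000

open CategoryTheory AlgebraicGeometry Pool.Agent.Y116.UV Pool.Agent.V5helper52.SF
  Pool.Agent.V5helper52.TR Pool.Agent.V5helper52.FW TensorProduct Polynomial

namespace Pool.Agent.V5helper52.PT

variable {k : Type} [Field k]

/-- a monic polynomial `Q` of degree `m`, units `v j` with `v j ^ E = g j * Q (q j)`, an element `x`, and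
units `z j` with `z j ^ E = q j - x` -/
structure IsU (E : ℕ) {σ : Type} (q g : σ → k) (m : ℕ) {D : Type} [CommRing D] [Algebra k D]
    (Q : D[X]) (v : σ → D) (x : D) (z : σ → D) : Prop where
  mon : IsMon m Q
  rel : ∀ j, v j ^ E = algebraMap k D (g j) * Q.eval (algebraMap k D (q j))
  unit : ∀ j, IsUnit (v j)
  relz : ∀ j, z j ^ E = algebraMap k D (q j) - x
  unitz : ∀ j, IsUnit (z j)
  lift : ∀ (F : Type) [CommRing F] [Algebra k F] (Q' : F[X]) (v' : σ → F) (x' : F) (z' : σ → F),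
    IsMon m Q' → (∀ j, v' j ^ E = algebraMap k F (g j) * Q'.eval (algebraMap k F (q j))) →
    (∀ j, IsUnit (v' j)) → (∀ j, z' j ^ E = algebraMap k F (q j) - x') → (∀ j, IsUnit (z' j)) →
    ∃ h : D →ₐ[k] F, Q.map (h : D →+* F) = Q' ∧ (∀ j, h (v j) = v' j) ∧ h x = x' ∧
      ∀ j, h (z j) = z' j
  ext : ∀ (F : Type) [CommRing F] [Algebra k F] (h h' : D →ₐ[k] F),
    Q.map (h : D →+* F) = Q.map (h' : D →+* F) → (∀ j, h (v j) = h' (v j)) → h x = h' x →
    (∀ j, h (z j) = h' (z j)) → h = h'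

lemma map_comp' {A B C : Type} [CommRing A] [Algebra k A] [CommRing B] [Algebra k B] [CommRing C]
    [Algebra k C] (f : A →ₐ[k] B) (g : B →ₐ[k] C) (Q : A[X]) :
    Q.map ((g.comp f : A →ₐ[k] C) : A →+* C) = (Q.map (f : A →+* B)).map (g : B →+* C) := by
  rw [Polynomial.map_map]
  rfl

lemma map_id' {A : Type} [CommRing A] [Algebra k A] (Q : A[X]) :
    Q.map ((AlgHom.id k A : A →ₐ[k] A) : A →+* A) = Q := Polynomial.map_id

lemma IsU.iso {E : ℕ} {σ : Type} {q g : σ → k} {m : ℕ} {D D' : Type} [CommRing D] [Algebra k D]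
    [CommRing D'] [Algebra k D'] {Q : D[X]} {v : σ → D} {x : D} {z : σ → D} {Q' : D'[X]}
    {v' : σ → D'} {x' : D'} {z' : σ → D'} (h : IsU E q g m Q v x z) (h' : IsU E q g m Q' v' x' z') :
    Nonempty (D ≃ₐ[k] D') := by
  obtain ⟨f, f1, f2, f3, f4⟩ := h.lift D' Q' v' x' z' h'.mon h'.rel h'.unit h'.relz h'.unitz
  obtain ⟨f', f1', f2', f3', f4'⟩ := h'.lift D Q v x z h.mon h.rel h.unit h.relz h.unitz
  refine ⟨mkIso f f' ?_ ?_⟩
  · refine h.ext D _ _ ?_ (fun j => ?_) ?_ fun j => ?_
    · rw [map_comp', f1, f1', map_id']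
    · rw [AlgHom.comp_apply, f2, f2']
      rfl
    · rw [AlgHom.comp_apply, f3, f3']
      rfl
    · rw [AlgHom.comp_apply, f4, f4']
      rfl
  · refine h'.ext D' _ _ ?_ (fun j => ?_) ?_ fun j => ?_
    · rw [map_comp', f1', f1, map_id']
    · rw [AlgHom.comp_apply, f2', f2]
      rfl
    · rw [AlgHom.comp_apply, f3', f3]
      rfl
    · rw [AlgHom.comp_apply, f4', f4]
      rfl

lemma IsS.iso {E : ℕ} {σ : Type} {q g : σ → k} {m : ℕ} {D D' : Type} [CommRing D] [Algebra k D]
    [CommRing D'] [Algebra k D'] {Q : D[X]} {v : σ → D} {Q' : D'[X]}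
    {v' : σ → D'} (h : IsS E q g m Q v) (h' : IsS E q g m Q' v') :
    Nonempty (D ≃ₐ[k] D') := by
  obtain ⟨f, f1, f2⟩ := h.lift D' Q' v' h'.mon h'.rel h'.unit
  obtain ⟨f', f1', f2'⟩ := h'.lift D Q v h.mon h.rel h.unit
  refine ⟨mkIso f f' ?_ ?_⟩
  · refine h.ext D _ _ ?_ (fun j => ?_)
    · rw [map_comp', f1, f1', map_id']
    · rw [AlgHom.comp_apply, f2, f2']
      rfl
  · refine h'.ext D' _ _ ?_ (fun j => ?_)
    · rw [map_comp', f1', f1, map_id']
    · rw [AlgHom.comp_apply, f2', f2]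
      rfl

lemma map_eval' {A B : Type} [CommRing A] [Algebra k A] [CommRing B] [Algebra k B] (f : A →ₐ[k] B)
    (Q : A[X]) (c : k) : f (Q.eval (algebraMap k A c)) =
      (Q.map (f : A →+* B)).eval (algebraMap k B c) := by
  rw [← AlgHom.commutes f c, Polynomial.eval_map]
  exact (Polynomial.eval₂_at_apply (f : A →+* B) _).symm

lemma one_mon {R : Type} [CommRing R] {Q : R[X]} (h : IsMon 1 Q) : Q = X + C (Q.coeff 0) := by
  ext i
  rcases i with _ | _ | i
  · rw [coeff_add, coeff_X_zero, coeff_C_zero, zero_add]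
  · rw [h.1, coeff_add, coeff_X_one, coeff_C_succ, add_zero]
  · rw [h.2 _ (by omega), coeff_add, coeff_X, coeff_C_succ, if_neg (by omega), add_zero]

/-- The product of the algebra of `(Q, v)` and of the curve of `(x, z)`. -/
lemma isU_tens {E : ℕ} {σ : Type} {q g : σ → k} {m : ℕ} {D C' : Type} [CommRing D] [Algebra k D]
    [CommRing C'] [Algebra k C'] {Q : D[X]} {v : σ → D} {R : C'[X]} {z : σ → C'}
    (h : IsS E q g m Q v) (h' : IsS E q (fun _ => 1) 1 R z) :
    IsU E q g m (D := D ⊗[k] C')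
      (Q.map ((Algebra.TensorProduct.includeLeft : D →ₐ[k] D ⊗[k] C') : D →+* D ⊗[k] C'))
      (fun j => (Algebra.TensorProduct.includeLeft : D →ₐ[k] D ⊗[k] C') (v j))
      (-(Algebra.TensorProduct.includeRight : C' →ₐ[k] D ⊗[k] C') (R.coeff 0))
      (fun j => (Algebra.TensorProduct.includeRight : C' →ₐ[k] D ⊗[k] C') (z j)) where
  mon := isMon_map _ h.mon
  rel j := by
    rw [← map_pow, h.rel, map_mul, AlgHom.commutes, map_eval']
  unit j := (h.unit j).map _
  relz j := by
    have h1 : R.eval (algebraMap k C' (q j)) = algebraMap k C' (q j) + R.coeff 0 := by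
      conv_lhs => rw [one_mon h'.mon]
      rw [eval_add, eval_X, eval_C]
    rw [sub_neg_eq_add, ← map_pow, h'.rel, map_one, one_mul, h1, map_add, AlgHom.commutes]
  unitz j := (h'.unit j).map _
  lift F _ _ Q' v' x' z' h1 h2 h3 h4 h5 := by
    obtain ⟨f, f1, f2⟩ := h.lift F Q' v' h1 h2 h3
    obtain ⟨f', f1', f2'⟩ := h'.lift F (X - C x') z'
      ⟨by rw [coeff_sub, coeff_X_one, coeff_C_succ, sub_zero], fun i hi => by
        obtain ⟨i, rfl⟩ : ∃ i', i = i' + 2 := ⟨i - 2, by omega⟩
        rw [coeff_sub, coeff_X, coeff_C_succ, if_neg (by omega), sub_zero]⟩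
      (fun j => by rw [h4, map_one, one_mul, eval_sub, eval_X, eval_C]) h5
    have hl : (Algebra.TensorProduct.productMap f f').comp
        (Algebra.TensorProduct.includeLeft : D →ₐ[k] D ⊗[k] C') = f :=
      Algebra.TensorProduct.productMap_left f f'
    have hr : ∀ c, Algebra.TensorProduct.productMap f f'
        ((Algebra.TensorProduct.includeRight : C' →ₐ[k] D ⊗[k] C') c) = f' c := fun c =>
      Algebra.TensorProduct.productMap_right_apply f f' c
    refine ⟨Algebra.TensorProduct.productMap f f', ?_, fun j => ?_, ?_, fun j => ?_⟩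
    · rw [← map_comp', hl, f1]
    · exact (DFunLike.congr_fun hl (v j)).trans (f2 j)
    · rw [map_neg, hr]
      have h6 : f' (R.coeff 0) = (R.map (f' : C' →+* F)).coeff 0 := (coeff_map _ _).symm
      rw [h6, f1', coeff_sub, coeff_X_zero, coeff_C_zero, zero_sub, neg_neg]
    · rw [hr, f2']
  ext F _ _ f f' h1 h2 h3 h4 := by
    apply Algebra.TensorProduct.ext'
    have hl : f.comp (Algebra.TensorProduct.includeLeft : D →ₐ[k] D ⊗[k] C') =
        f'.comp (Algebra.TensorProduct.includeLeft : D →ₐ[k] D ⊗[k] C') := by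
      refine h.ext F _ _ ?_ h2
      rw [map_comp', map_comp']
      exact h1
    have hr : f.comp (Algebra.TensorProduct.includeRight : C' →ₐ[k] D ⊗[k] C') =
        f'.comp (Algebra.TensorProduct.includeRight : C' →ₐ[k] D ⊗[k] C') := by
      refine h'.ext F _ _ ?_ h4
      rw [one_mon h'.mon, Polynomial.map_add, Polynomial.map_add, map_X, map_X, map_C, map_C]
      congr 2
      rw [map_neg, map_neg, neg_inj] at h3
      exact h3
    intro a b
    have h5 : a ⊗ₜ[k] b = (Algebra.TensorProduct.includeLeft : D →ₐ[k] D ⊗[k] C') a *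
        (Algebra.TensorProduct.includeRight : C' →ₐ[k] D ⊗[k] C') b := by
      rw [Algebra.TensorProduct.includeLeft_apply, Algebra.TensorProduct.includeRight_apply,
        Algebra.TensorProduct.tmul_mul_tmul, one_mul, mul_one]
    rw [h5, map_mul, map_mul]
    exact congrArg₂ _ (DFunLike.congr_fun hl a) (DFunLike.congr_fun hr b)

/-- The covering of the algebra of `(P, w)`. -/
lemma isU_cover {E : ℕ} {σ : Type} {q g : σ → k} {m : ℕ} {D D2 : Type} [CommRing D] [Algebra k D]
    [CommRing D2] [Algebra k D2] {P : D[X]} {w : σ → D} (h : IsS E q g (m + 1) P w)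
    {ι : AdjoinRoot P →ₐ[k] D2} {z : σ → D2}
    (hz : IsRt E (fun j => algebraMap k (AdjoinRoot P) (q j) - AdjoinRoot.root P) ι z)
    (hu : ∀ j, IsUnit (algebraMap k (AdjoinRoot P) (q j) - AdjoinRoot.root P)) (hE : 0 < E) :
    ∃ (Q : D2[X]) (v : σ → D2) (x : D2), IsU E q g m Q v x z := by
  -- the structure map
  obtain ⟨ι0, hι0⟩ : ∃ ι0 : D →ₐ[k] AdjoinRoot P, ∀ d, ι0 d = AdjoinRoot.of P d :=
    ⟨IsScalarTower.toAlgHom k D (AdjoinRoot P), fun _ => rfl⟩
  obtain ⟨ι1, hι1⟩ : ∃ ι1 : D →ₐ[k] D2, ∀ d, ι1 d = ι (ι0 d) := ⟨ι.comp ι0, fun _ => rfl⟩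
  obtain ⟨x, hx⟩ : ∃ x : D2, x = ι (AdjoinRoot.root P) := ⟨_, rfl⟩
  have hroot : (P.map (ι1 : D →+* D2)).eval x = 0 := by
    rw [Polynomial.eval_map]
    have h1 := Polynomial.hom_eval₂ P (AdjoinRoot.of P) (ι : AdjoinRoot P →+* D2)
      (AdjoinRoot.root P)
    rw [AdjoinRoot.eval₂_root, map_zero] at h1
    have h2 : (ι1 : D →+* D2) = (ι : AdjoinRoot P →+* D2).comp (AdjoinRoot.of P) :=
      RingHom.ext fun d => (hι1 d).trans (congrArg ι (hι0 d))
    rw [h2, hx]
    exact h1.symm
  obtain ⟨Q, hQ, hPQ⟩ := isMon_div (isMon_map (ι1 : D →+* D2) h.mon) x hroot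
  have hzE : ∀ j, z j ^ E = algebraMap k D2 (q j) - x := fun j => by
    rw [hz.rel, map_sub, AlgHom.commutes, hx]
  have hzu : ∀ j, IsUnit (z j) := fun j => by
    rw [← isUnit_pow_iff hE.ne', hz.rel]
    exact (hu j).map _
  choose z' hz' using hzu
  have hvz : ∀ j, ι1 (w j) * ((z' j)⁻¹ : D2ˣ) * z j = ι1 (w j) := fun j => by
    rw [mul_assoc, ← hz', Units.inv_mul, mul_one]
  have hevP : ∀ j, (P.map (ι1 : D →+* D2)).eval (algebraMap k D2 (q j)) =
      z j ^ E * Q.eval (algebraMap k D2 (q j)) := fun j => by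
    rw [hPQ, eval_mul, eval_sub, eval_X, eval_C, hzE]
  refine ⟨Q, fun j => ι1 (w j) * ((z' j)⁻¹ : D2ˣ), x, ?_⟩
  exact
  { mon := hQ
    rel := fun j => by
      have h1 : ι1 (w j) ^ E = algebraMap k D2 (g j) *
          (z j ^ E * Q.eval (algebraMap k D2 (q j))) := by
        rw [← map_pow, h.rel, map_mul, AlgHom.commutes, map_eval', hevP]
      rw [mul_pow, h1, ← hz', ← Units.val_pow_eq_pow_val, ← Units.val_pow_eq_pow_val, inv_pow]
      rw [mul_comm, ← mul_assoc, mul_comm _ (algebraMap k D2 (g j)), mul_assoc, ← mul_assoc _ _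
        (Q.eval _), Units.inv_mul, one_mul]
    unit := fun j => ((h.unit j).map ι1).mul (Units.isUnit _)
    relz := hzE
    unitz := fun j => ⟨z' j, hz' j⟩
    lift := fun F _ _ Q' v' x' y' h1 h2 h3 h4 h5 => by
      obtain ⟨f, f1, f2⟩ := h.lift F ((X - C x') * Q') (fun j => v' j * y' j) (isMon_mul h1 x')
        (fun j => by
          rw [mul_pow, h2, h4, eval_mul, eval_sub, eval_X, eval_C]
          ring) fun j => (h3 j).mul (h5 j)
      have h6 : P.eval₂ (f : D →+* F) x' = 0 := by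
        rw [← Polynomial.eval_map, f1, eval_mul, eval_sub, eval_X, eval_C, sub_self, zero_mul]
      let F1 : AdjoinRoot P →ₐ[k] F := AdjoinRoot.liftAlgHom P f x' h6
      have hF1 : ∀ d, F1 (ι0 d) = f d := fun d => by
        rw [hι0]
        exact AdjoinRoot.liftAlgHom_of _ _ _ _ _
      have hF2 : F1 (AdjoinRoot.root P) = x' := AdjoinRoot.liftAlgHom_root _ _ _ _
      obtain ⟨G, G1, G2⟩ := hz.lift F F1 y' (fun j => by
        rw [h4, map_sub, AlgHom.commutes, hF2])
      have hG : ∀ d, G (ι1 d) = f d := fun d => by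
        rw [hι1]
        exact (DFunLike.congr_fun G1 (ι0 d)).trans (hF1 d)
      have hGx : G x = x' := by
        rw [hx]
        exact (DFunLike.congr_fun G1 (AdjoinRoot.root P)).trans hF2
      refine ⟨G, ?_, fun j => ?_, hGx, G2⟩
      · apply lin_cancel (x := x')
        have h7 : ((P.map (ι1 : D →+* D2)).map (G : D2 →+* F)) = P.map (f : D →+* F) := by
          rw [← map_comp']
          congr 1
          exact RingHom.ext hG
        rw [hPQ, f1, Polynomial.map_mul, Polynomial.map_sub, map_X, map_C] at h7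
        rw [← h7]
        congr 3
        exact hGx.symm
      · have h8 : G (ι1 (w j) * ((z' j)⁻¹ : D2ˣ)) * y' j = v' j * y' j := by
          rw [← f2, ← hG, ← hvz j, map_mul G _ (z j), G2, hvz]
        exact (h5 j).mul_right_cancel h8
    ext := fun F _ _ f f' h1 h2 h3 h4 => by
      refine hz.ext F f f' ?_ h4
      have h5 : (f.comp ι1) = f'.comp ι1 := by
        refine h.ext F _ _ ?_ fun j => ?_
        · rw [map_comp', map_comp', hPQ, Polynomial.map_mul, Polynomial.map_mul, h1,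
            Polynomial.map_sub, Polynomial.map_sub, map_X, map_X, map_C, map_C]
          congr 3
        · rw [AlgHom.comp_apply, AlgHom.comp_apply, ← hvz j, map_mul f _ (z j),
            map_mul f' _ (z j), h2 j, h4 j]
      rw [hx] at h3
      refine AdjoinRoot.algHom_ext' ?_ h3
      apply AlgHom.ext
      intro d
      have h6 := DFunLike.congr_fun h5 d
      change f (ι1 d) = f' (ι1 d) at h6
      rw [hι1, hι0] at h6
      exact h6 }

variable {P : Sch k → Prop} (hP : Cls True P)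

include hP

/-- **The algebras of monic polynomials.** -/
theorem p_S (exs : S_EXS) {E : ℕ} (hE : 0 < E) {σ : Type} [Finite σ] (q : σ → k) (n : ℕ) :
    ∀ (g : σ → k) (D : Type) [CommRing D] [Algebra k D] [Algebra.FiniteType k D] (p : D[X])
      (w : σ → D), IsS E q g n p w → P (aff k D) := by
  induction n with
  | zero =>
    intro g D _ _ _ p w h
    obtain ⟨D0, _, _, P0, w0, h0, hft, hdim⟩ := exs k E hE σ q g 0
    refine iso' hP (h0.iso h) (hP.curve D0 (hdim.trans ?_))
    exact_mod_cast zero_le_one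
  | succ m ih =>
    intro g D _ _ _ p w h
    have hft1 : Algebra.FiniteType k (AdjoinRoot p) :=
      Algebra.FiniteType.trans (S := D) inferInstance inferInstance
    refine p_root hP h.mon ?_
    have hu : ∀ j, IsUnit (algebraMap k (AdjoinRoot p) (q j) - AdjoinRoot.root p) := by
      intro j
      let ι0 : D →ₐ[k] AdjoinRoot p := IsScalarTower.toAlgHom k D (AdjoinRoot p)
      have hroot : (p.map (ι0 : D →+* AdjoinRoot p)).eval (AdjoinRoot.root p) = 0 := by
        rw [Polynomial.eval_map]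
        exact AdjoinRoot.eval₂_root p
      obtain ⟨Q, hQ⟩ : ∃ Q, p.map (ι0 : D →+* AdjoinRoot p) = (X - C (AdjoinRoot.root p)) * Q :=
        dvd_iff_isRoot.mpr hroot
      have h1 : IsUnit (ι0 (w j) ^ E) := ((h.unit j).map ι0).pow E
      rw [← map_pow, h.rel, map_mul, map_eval', hQ, eval_mul, eval_sub, eval_X, eval_C] at h1
      exact isUnit_of_mul_isUnit_left (isUnit_of_mul_isUnit_right h1)
    refine p_kums hP hE σ (AdjoinRoot p) _ hu fun D2 _ _ _ ι z hz => ?_
    obtain ⟨Q, v, x, hU⟩ := isU_cover h hz hu hE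
    obtain ⟨D', _, _, P', w', h', hft', _⟩ := exs k E hE σ q g m
    obtain ⟨C', _, _, R, z', h'', hft'', hdim⟩ := exs k E hE σ q (fun _ => 1) 1
    have h3 := isU_tens h' h''
    refine iso' hP (h3.iso hU) (hP.prod D' C' (ih g D' P' w' h') (hP.curve C' ?_))
    exact_mod_cast hdim

end Pool.Agent.V5helper52.PT
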