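import Pool.Agent.V5helper52.PT.Tor

/-!
# Two polynomials with independent exponents
-/

set_option autoImplicit false
set_option maxHeartbeats 400000

open CategoryTheory AlgebraicGeometry MvPolynomial Pool.Agent.Y116.UV Pool.Agent.V5helper52.SF
  Pool.Agent.V5helper52.TR Pool.Agent.V5helper52.FW Pool.Agent.Z125.UN

namespace Pool.Agent.V5helper52.PT

variable {k : Type} [Field k]

section lat

variable {T : Type}

/-- the exponents of several Laurent polynomials -/
def lx {κ : Type} (g : κ → AddMonoidAlgebra k (T → ℤ)) : Set (T → ℤ) :=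
  ⋃ l, ((g l).coeff.support : Set (T → ℤ))

lemma shift_fam {κ : Type} (g : κ → AddMonoidAlgebra k (T → ℤ)) (m0 : T → ℤ) :
    Ideal.span (Set.range fun l => AddMonoidAlgebra.single (-m0) 1 * g l) =
      Ideal.span (Set.range g) := by
  have hu : IsUnit (AddMonoidAlgebra.single (-m0) (1 : k)) := by
    refine IsUnit.of_mul_eq_one (AddMonoidAlgebra.single m0 1) ?_
    rw [AddMonoidAlgebra.single_mul_single, neg_add_cancel, mul_one]
    rfl
  apply le_antisymm
  · rw [Ideal.span_le]
    rintro _ ⟨l, rfl⟩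
    exact Ideal.mul_mem_left _ _ (Ideal.subset_span ⟨l, rfl⟩)
  · rw [Ideal.span_le]
    rintro _ ⟨l, rfl⟩
    exact (Ideal.unit_mul_mem_iff_mem _ hu).mp (Ideal.subset_span ⟨l, rfl⟩)

variable [Fintype T] [DecidableEq T] {P : Sch k → Prop} (hP : Cls True P)

include hP

/-- two Laurent polynomials with affinely independent exponents -/
theorem lat_pair (exs : S_EXS) (lag : S_LAG) (cone : S_CONE) (merge : S_MERGE) (red : S_RED)
    (g : Bool → AddMonoidAlgebra k (T → ℤ)) (S : Finset (T → ℤ))
    (hS : ∀ l, (g l).coeff.support ⊆ S) (hg : AffineIndependent ℚ fun m : S => qv m.1) :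
    P (aff k (AddMonoidAlgebra k (T → ℤ) ⧸ Ideal.span (Set.range g))) := by
  classical
  rcases S.eq_empty_or_nonempty with rfl | ⟨m0, hm0⟩
  · obtain ⟨E, j, hE, hj1, hj3⟩ := red k P hP T 0 (fun i => i.elim0) (linearIndependent_empty_type)
    refine hj3 Bool g (fun l m hm => ?_) (hP.curve _ ((ringKrullDim_quotient_le _).trans
      ((dim_tor 0).trans ?_)))
    · exact absurd (hS l hm) (Finset.notMem_empty m)
    · exact_mod_cast zero_le_one
  rw [affineIndependent_iff_linearIndependent_vsub ℚ _ ⟨m0, hm0⟩] at hg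
  let κ := {x : S // x ≠ ⟨m0, hm0⟩}
  obtain ⟨ρ, ⟨e⟩⟩ : ∃ ρ, Nonempty (Fin ρ ≃ κ) := ⟨_, ⟨(Fintype.equivFin κ).symm⟩⟩
  let v : Fin ρ → (T → ℤ) := fun i => (e i).1.1 - m0
  have hv : LinearIndependent ℚ fun i : Fin ρ => qv (v i) := by
    have h1 := hg.comp e e.injective
    have h2 : (fun i : Fin ρ => qv (v i)) = (fun i : κ => qv i.1.1 -ᵥ qv m0) ∘ e := by
      funext i
      exact qv_sub _ _
    rw [h2]
    exact h1
  obtain ⟨E, j, hE, hj1, hj3⟩ := red k P hP T ρ v hv
  have hsum : ∀ l, AddMonoidAlgebra.single (-m0) 1 * g l =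
      AddMonoidAlgebra.single 0 ((g l).coeff m0) +
      ∑ i, AddMonoidAlgebra.single (v i) ((g l).coeff (e i).1.1) := by
    intro l
    have h0 : AddMonoidAlgebra.single (-m0) 1 * g l =
        ∑ m ∈ S, AddMonoidAlgebra.single (m - m0) ((g l).coeff m) := by
      rw [shift_eq]
      refine Finset.sum_subset (hS l) fun m _ hm => ?_
      rw [Finsupp.notMem_support_iff.mp hm, AddMonoidAlgebra.single_zero]
    rw [h0, ← Finset.add_sum_erase _ _ hm0, sub_self]
    congr 1
    symm
    refine Finset.sum_bij (fun i _ => (e i).1.1) ?_ ?_ ?_ ?_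
    · intro i _
      refine Finset.mem_erase.mpr ⟨fun h => (e i).2 (Subtype.ext h), (e i).1.2⟩
    · intro i _ i' _ h
      exact e.injective (Subtype.ext (Subtype.ext h))
    · intro m hm
      obtain ⟨h1, h2⟩ := Finset.mem_erase.mp hm
      refine ⟨e.symm ⟨⟨m, h2⟩, fun h => h1 (congrArg Subtype.val h)⟩, Finset.mem_univ _, ?_⟩
      rw [e.apply_symm_apply]
    · intro i _
      rfl
  rw [← shift_fam g m0]
  refine hj3 Bool _ (fun l m hm => ?_) ?_
  · obtain ⟨m', hm', rfl⟩ := shift_supp (g l) m0 m hm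
    by_cases h : m' = m0
    · rw [h, sub_self]
      have h0 : qv (0 : T → ℤ) = 0 := by
        funext t
        exact Int.cast_zero
      rw [h0]
      exact zero_mem _
    · refine Submodule.subset_span ⟨e.symm ⟨⟨m', hS l hm'⟩, fun h' => h (congrArg Subtype.val h')⟩,
        ?_⟩
      change qv ((e (e.symm _)).1.1 - m0) = _
      rw [e.apply_symm_apply]
  · let M : Bool → Option (Fin ρ) → k := fun l x =>
      x.elim ((g l).coeff m0) fun i => (g l).coeff (e i).1.1
    have h3 := p_tpair hP exs lag cone merge hE M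
    have h4 : (fun l => md k j (AddMonoidAlgebra.single (-m0) 1 * g l)) = fun l =>
        AddMonoidAlgebra.single 0 (M l none) +
          ∑ i, AddMonoidAlgebra.single (E • Pi.single i 1 : Fin ρ → ℤ) (M l (some i)) := by
      funext l
      rw [hsum, map_add, map_sum, md_single, map_zero]
      congr 1
      refine Finset.sum_congr rfl fun i _ => ?_
      rw [md_single, hj1]
      rfl
    rw [h4]
    exact h3

end lat

end Pool.Agent.V5helper52.PT
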