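import Pool.Agent.V5helper52.PT.Lat

/-!
# Several polynomials with exponents in a subspace of small dimension
-/

set_option autoImplicit false
set_option maxHeartbeats 400000

open CategoryTheory AlgebraicGeometry MvPolynomial Pool.Agent.Y116.UV Pool.Agent.V5helper52.SF
  Pool.Agent.V5helper52.TR Pool.Agent.V5helper52.FW Pool.Agent.Z125.UN

namespace Pool.Agent.V5helper52.PT

variable {k : Type} [Field k] {P : Sch k → Prop}

/-- Reduction to the torus of the span of the exponents. -/
theorem p_redf (hP : Cls True P) {T : Type} [Fintype T] [DecidableEq T] {ρ : ℕ}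
    (v : Fin ρ → (T → ℤ)) (hv : LinearIndependent ℚ fun i => qv (v i)) :
    ∃ j : (T → ℤ) →+ (Fin ρ → ℤ),
      (∀ m : T → ℤ, qv m ∈ Submodule.span ℚ (Set.range fun i => qv (v i)) → j m = 0 → m = 0) ∧
      ∀ (κ : Type) (f : κ → AddMonoidAlgebra k (T → ℤ)), (∀ l, ∀ m ∈ (f l).coeff.support,
        qv m ∈ Submodule.span ℚ (Set.range fun i => qv (v i))) →
        P (aff k (AddMonoidAlgebra k (Fin ρ → ℤ) ⧸ Ideal.span (Set.range fun l => md k j (f l)))) →
        P (aff k (AddMonoidAlgebra k (T → ℤ) ⧸ Ideal.span (Set.range f))) := by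
  classical
  obtain ⟨β, hβ, E, j, hE, hinj, hfin, h1, h2, h3⟩ := exists_emb v hv
  let pr : (Fin ρ ⊕ β → ℤ) →+ (Fin ρ → ℤ) :=
    { toFun := fun x i => x (Sum.inl i)
      map_zero' := rfl
      map_add' := fun _ _ => rfl }
  let ι : (Fin ρ → ℤ) →+ (Fin ρ ⊕ β → ℤ) :=
    { toFun := fun x => Sum.elim x 0
      map_zero' := by
        funext x
        rcases x with x | x <;> rfl
      map_add' := fun x y => by
        funext z
        rcases z with z | z
        · rfl
        · exact (add_zero (0 : ℤ)).symm }
  have hι : ∀ m : T → ℤ, qv m ∈ Submodule.span ℚ (Set.range fun i => qv (v i)) →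
      j m = ι (pr (j m)) := by
    intro m hm
    funext x
    rcases x with x | x
    · rfl
    · exact h3 m hm x
  refine ⟨pr.comp j, ?_, ?_⟩
  · intro m hm h0
    apply hinj
    rw [hι m hm, show pr (j m) = 0 from h0, map_zero, map_zero]
  · intro κ f hf hg
    refine p_cover hinj hP _ inferInstance ?_
    have hf' : ∀ l, md k j (f l) = md k ι (md k (pr.comp j) (f l)) := by
      intro l
      rw [← md_comp]
      exact md_congr (f l) fun m hm => hι m (hf l m hm)
    obtain ⟨b, ⟨eb⟩⟩ := Finite.exists_equiv_fin β
    let e : (Fin b → ℤ) × (Fin ρ → ℤ) ≃+ (Fin ρ ⊕ β → ℤ) :=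
      { toFun := fun x => Sum.elim x.2 (fun y => x.1 (eb y))
        invFun := fun x => (fun y => x (Sum.inr (eb.symm y)), fun i => x (Sum.inl i))
        left_inv := fun x => by
          refine Prod.ext ?_ rfl
          funext y
          exact congrArg x.1 (eb.apply_symm_apply y)
        right_inv := fun x => by
          funext y
          rcases y with y | y
          · rfl
          · exact congrArg (fun z => x (Sum.inr z)) (eb.symm_apply_apply y)
        map_add' := fun x y => by
          funext z
          rcases z with z | z <;> rfl }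
    have h4 := p_split (loc_of_bnd hP.toBnd) (N := Fin ρ → ℤ) inferInstance e
      (Ideal.span (Set.range fun l => md k (pr.comp j) (f l))) ι (fun n => by
        funext z
        rcases z with z | z <;> rfl) hg
    have h5 : (Ideal.span (Set.range f)).map (md k j) =
        (Ideal.span (Set.range fun l => md k (pr.comp j) (f l))).map (md k ι) := by
      rw [Ideal.map_span, Ideal.map_span, ← Set.range_comp, ← Set.range_comp]
      congr 2
      funext l
      exact hf' l
    rw [h5]
    exact h4

variable (hP : Cls True P) {n : ℕ} (hn : ∀ (A : Type) [CommRing A] [Algebra k A]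
  [Algebra.FiniteType k A], ringKrullDim A ≤ n → P (aff k A))

include hP hn

/-- several Laurent polynomials with exponents in a subspace of small dimension -/
theorem lat_plane_fam {T : Type} [Fintype T] [DecidableEq T] {κ : Type}
    (g : κ → AddMonoidAlgebra k (T → ℤ))
    (hg : Module.finrank ℚ (vectorSpan ℚ (qv '' lx g)) ≤ n + 1) (hfin : (lx g).Finite) :
    P (aff k (AddMonoidAlgebra k (T → ℤ) ⧸ Ideal.span (Set.range g))) := by
  classical
  rcases (lx g).eq_empty_or_nonempty with h0 | ⟨m0, hm0⟩
  · obtain ⟨j, _, hj3⟩ := p_redf hP (T := T) (ρ := 0) (fun i => i.elim0)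
      (linearIndependent_empty_type)
    refine hj3 κ g (fun l m hm => ?_) (hn _ ((ringKrullDim_quotient_le _).trans
      ((dim_tor 0).trans ?_)))
    · have h1 : m ∈ lx g := Set.mem_iUnion.mpr ⟨l, hm⟩
      rw [h0] at h1
      exact absurd h1 (Set.notMem_empty m)
    · exact_mod_cast Nat.zero_le n
  · obtain ⟨l0, hl0⟩ := Set.mem_iUnion.mp hm0
    let S : Set (T → ℤ) := (fun m => m - m0) '' lx g
    have hSfin : S.Finite := hfin.image _
    obtain ⟨b, hbS, hspan, hb⟩ := exists_linearIndependent ℚ (qv '' S)
    have hbfin : b.Finite := (hSfin.image _).subset hbS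
    have := hbfin.fintype
    have hW : vectorSpan ℚ (qv '' lx g) = Submodule.span ℚ b := by
      rw [hspan, vectorSpan_eq_span_vsub_set_right ℚ (Set.mem_image_of_mem qv hm0)]
      congr 1
      ext x
      constructor
      · rintro ⟨_, ⟨m, hm, rfl⟩, rfl⟩
        exact ⟨m - m0, ⟨m, hm, rfl⟩, qv_sub _ _⟩
      · rintro ⟨_, ⟨m, hm, rfl⟩, rfl⟩
        exact ⟨qv m, ⟨m, hm, rfl⟩, (qv_sub _ _).symm⟩
    have hρ : Fintype.card b ≤ n + 1 := by
      rw [hW, finrank_span_set_eq_card hb, Set.toFinset_card] at hg
      exact hg
    obtain ⟨ρ, hρ2, ⟨e⟩⟩ : ∃ ρ, ρ ≤ n + 1 ∧ Nonempty (Fin ρ ≃ b) :=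
      ⟨_, hρ, ⟨(Fintype.equivFin b).symm⟩⟩
    have hch : ∀ x : b, ∃ m : T → ℤ, qv m = x := fun x => by
      obtain ⟨m, _, hm⟩ := hbS x.2
      exact ⟨m, hm⟩
    choose w hw using hch
    have hv : LinearIndependent ℚ fun i : Fin ρ => qv (w (e i)) := by
      have h1 := hb.comp e e.injective
      have h2 : (Subtype.val : b → (T → ℚ)) ∘ e = fun i : Fin ρ => qv (w (e i)) := by
        funext i
        exact (hw (e i)).symm
      rw [h2] at h1
      exact h1
    have hvs : Submodule.span ℚ (Set.range fun i : Fin ρ => qv (w (e i))) =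
        Submodule.span ℚ b := by
      congr 1
      ext x
      constructor
      · rintro ⟨i, rfl⟩
        change qv (w (e i)) ∈ b
        rw [hw]
        exact (e i).2
      · intro hx
        refine ⟨e.symm ⟨x, hx⟩, ?_⟩
        change qv (w (e (e.symm ⟨x, hx⟩))) = x
        rw [hw, e.apply_symm_apply]
    obtain ⟨j, hj2, hj3⟩ := p_redf hP (fun i => w (e i)) hv
    have hmem : ∀ m ∈ lx g, qv (m - m0) ∈
        Submodule.span ℚ (Set.range fun i : Fin ρ => qv (w (e i))) := by
      intro m hm
      rw [hvs, hspan]
      exact Submodule.subset_span ⟨m - m0, ⟨m, hm, rfl⟩, rfl⟩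
    rw [← shift_fam g m0]
    refine hj3 κ _ (fun l m hm => ?_) ?_
    · obtain ⟨m', hm', rfl⟩ := shift_supp (g l) m0 m hm
      exact hmem m' (Set.mem_iUnion.mpr ⟨l, hm'⟩)
    · refine hn _ ?_
      rcases Nat.lt_or_eq_of_le hρ2 with hlt | heq
      · refine (ringKrullDim_quotient_le _).trans ((dim_tor ρ).trans ?_)
        have h2 : ρ ≤ n := by omega
        exact_mod_cast h2
      · subst heq
        have hne : md k j (AddMonoidAlgebra.single (-m0) 1 * g l0) ≠ 0 := by
          intro h0
          rw [shift_eq, map_sum] at h0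
          have h1 := congrArg (fun x : AddMonoidAlgebra k (Fin (n + 1) → ℤ) => x.coeff 0) h0
          simp only [md_single] at h1
          have h2 : ∀ s : Finset (T → ℤ), (∀ m ∈ s, m ∈ (g l0).coeff.support) →
              (∑ m ∈ s, AddMonoidAlgebra.single (j (m - m0)) ((g l0).coeff m)).coeff 0 =
                if m0 ∈ s then (g l0).coeff m0 else 0 := by
            intro s
            induction s using Finset.induction_on with
            | empty => intro _; simp
            | insert a s ha ih =>
              intro hs
              rw [Finset.sum_insert ha, AddMonoidAlgebra.coeff_add, Finsupp.add_apply,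
                ih fun m hm => hs m (Finset.mem_insert_of_mem hm), AddMonoidAlgebra.coeff_single,
                Finsupp.single_apply]
              by_cases h : a = m0
              · subst h
                rw [sub_self, map_zero, if_pos rfl, if_neg ha, add_zero,
                  if_pos (Finset.mem_insert_self _ _)]
              · have h3 : j (a - m0) ≠ 0 := fun h4 => h (sub_eq_zero.mp
                  (hj2 _ (hmem a (Set.mem_iUnion.mpr ⟨l0, hs a (Finset.mem_insert_self _ _)⟩)) h4))
                rw [if_neg h3, zero_add]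
                have h5 : (m0 ∈ insert a s) ↔ m0 ∈ s := by
                  rw [Finset.mem_insert]
                  exact ⟨fun h6 => h6.resolve_left fun h7 => h h7.symm, Or.inr⟩
                simp only [h5]
          have h3 := h2 (g l0).coeff.support (fun _ h => h)
          rw [if_pos (Finset.mem_coe.mp hl0)] at h3
          have h4 : (g l0).coeff m0 = 0 := h3.symm.trans h1
          exact (Finsupp.mem_support_iff.mp hl0) h4
        have h1 := ringKrullDim_quotient_succ_le_of_nonZeroDivisor
          (mem_nonZeroDivisors_of_ne_zero hne)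
        have h2 : ringKrullDim (AddMonoidAlgebra k (Fin (n + 1) → ℤ) ⧸
            Ideal.span {md k j (AddMonoidAlgebra.single (-m0) 1 * g l0)}) + 1 ≤
            (n : WithBot ℕ∞) + 1 := h1.trans ((dim_tor (n + 1)).trans (by push_cast; exact le_rfl))
        have h3 := ENat.WithBot.add_le_add_natCast_right_iff.mp h2
        refine le_trans ?_ h3
        have hle : Ideal.span {md k j (AddMonoidAlgebra.single (-m0) 1 * g l0)} ≤
            Ideal.span (Set.range fun l => md k j (AddMonoidAlgebra.single (-m0) 1 * g l)) := by
          rw [Ideal.span_singleton_le_iff_mem]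
          exact Ideal.subset_span ⟨l0, rfl⟩
        exact ringKrullDim_le_of_surjective (Ideal.Quotient.factor hle)
          (Ideal.Quotient.factor_surjective hle)

end Pool.Agent.V5helper52.PT
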