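import Pool.Agent.V5helper52.PT.Stm

/-!
# The induction over the roots
-/

set_option autoImplicit false
set_option maxHeartbeats 400000

open CategoryTheory AlgebraicGeometry Pool.Agent.Y116.UV Pool.Agent.V5helper52.SF
  Pool.Agent.V5helper52.TR Pool.Agent.V5helper52.FW TensorProduct Polynomial

namespace Pool.Agent.V5helper52.PT

/-! ### monic polynomials -/

section mon

variable {R : Type} [CommRing R]

lemma isMon_monic [Nontrivial R] {n : ℕ} {P : R[X]} (h : IsMon n P) : P.natDegree = n ∧ P.Monic := by
  have h1 : P.natDegree = n := by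
    apply le_antisymm
    · exact natDegree_le_iff_coeff_eq_zero.mpr h.2
    · refine le_natDegree_of_ne_zero ?_
      rw [h.1]
      exact one_ne_zero
  exact ⟨h1, by rw [Monic, leadingCoeff, h1, h.1]⟩

lemma coeff_lin (x : R) (Q : R[X]) (i : ℕ) :
    ((X - C x) * Q).coeff (i + 1) = Q.coeff i - x * Q.coeff (i + 1) := by
  rw [sub_mul, coeff_sub, coeff_X_mul, coeff_C_mul]

lemma isMon_mul {m : ℕ} {Q : R[X]} (h : IsMon m Q) (x : R) : IsMon (m + 1) ((X - C x) * Q) := by
  refine ⟨?_, fun i hi => ?_⟩
  · rw [coeff_lin, h.1, h.2 _ (Nat.lt_succ_self m), mul_zero, sub_zero]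
  · obtain ⟨i, rfl⟩ : ∃ i', i = i' + 1 := ⟨i - 1, by omega⟩
    rw [coeff_lin, h.2 i (by omega), h.2 (i + 1) (by omega), mul_zero, sub_zero]

lemma isMon_div {m : ℕ} {P : R[X]} (h : IsMon (m + 1) P) (x : R) (hx : P.eval x = 0) :
    ∃ Q : R[X], IsMon m Q ∧ P = (X - C x) * Q := by
  obtain ⟨Q, hQ⟩ : ∃ Q, P = (X - C x) * Q := dvd_iff_isRoot.mpr hx
  have h0 : ∀ i, m < i → Q.coeff i = x * Q.coeff (i + 1) := by
    intro i hi
    have h1 := h.2 (i + 1) (by omega)
    rw [hQ, coeff_lin, sub_eq_zero] at h1
    exact h1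
  have h2 : ∀ t i, m < i → Q.natDegree < i + t → Q.coeff i = 0 := by
    intro t
    induction t with
    | zero => exact fun i _ hi => coeff_eq_zero_of_natDegree_lt hi
    | succ t ih =>
      intro i hi hi'
      rw [h0 i hi, ih (i + 1) (by omega) (by omega), mul_zero]
  have h3 : ∀ i, m < i → Q.coeff i = 0 := fun i hi => h2 (Q.natDegree + 1) i hi (by omega)
  refine ⟨Q, ⟨?_, h3⟩, hQ⟩
  have h1 := h.1
  rw [hQ, coeff_lin, h3 (m + 1) (Nat.lt_succ_self m), mul_zero, sub_zero] at h1
  exact h1

lemma lin_cancel {x : R} {Q Q' : R[X]} (h : (X - C x) * Q = (X - C x) * Q') : Q = Q' :=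
  (monic_X_sub_C x).isRegular.left h

lemma isMon_map {S : Type} [CommRing S] (f : R →+* S) {n : ℕ} {P : R[X]} (h : IsMon n P) :
    IsMon n (P.map f) := by
  refine ⟨?_, fun i hi => ?_⟩
  · rw [coeff_map, h.1, map_one]
  · rw [coeff_map, h.2 i hi, map_zero]

end mon

variable {k : Type} [Field k]

/-! ### coverings -/

section cover

/-- roots of the elements `e j` -/
structure IsRt (E : ℕ) {σ B D : Type} [CommRing B] [Algebra k B] [CommRing D] [Algebra k D]
    (e : σ → B) (ι : B →ₐ[k] D) (z : σ → D) : Prop where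
  rel : ∀ j, z j ^ E = ι (e j)
  lift : ∀ (F : Type) [CommRing F] [Algebra k F] (φ : B →ₐ[k] F) (y : σ → F),
    (∀ j, y j ^ E = φ (e j)) → ∃ h : D →ₐ[k] F, h.comp ι = φ ∧ ∀ j, h (z j) = y j
  ext : ∀ (F : Type) [CommRing F] [Algebra k F] (h h' : D →ₐ[k] F), h.comp ι = h'.comp ι →
    (∀ j, h (z j) = h' (z j)) → h = h'

variable {P : Sch k → Prop} (hP : Cls True P)

include hP

/-- one root -/
lemma p_root {n : ℕ} {B : Type} [CommRing B] [Algebra k B] [Algebra.FiniteType k B] {p : B[X]}
    (hp : IsMon (n + 1) p) (h : P (aff k (AdjoinRoot p))) : P (aff k B) := by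
  by_cases hs : Subsingleton B
  · have h1 : Subsingleton (AdjoinRoot p) := Module.subsingleton B (AdjoinRoot p)
    exact hP.free B (AdjoinRoot p) 1 one_pos ⟨{ toFun := fun _ => 0
                                                invFun := fun _ => 0
                                                map_add' := fun _ _ => Subsingleton.elim _ _
                                                map_smul' := fun _ _ => Subsingleton.elim _ _
                                                left_inv := fun _ => Subsingleton.elim _ _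
                                                right_inv := fun _ => Subsingleton.elim _ _ }⟩ h
  · have hn : Nontrivial B := not_subsingleton_iff_nontrivial.mp hs
    obtain ⟨h1, h2⟩ := isMon_monic hp
    have h3 := (AdjoinRoot.powerBasis' h2).basis.equivFun
    have h4 : (AdjoinRoot.powerBasis' h2).dim = n + 1 := by
      rw [AdjoinRoot.powerBasis'_dim, h1]
    rw [h4] at h3
    exact hP.free B (AdjoinRoot p) (n + 1) (Nat.succ_pos n) ⟨h3⟩ h

/-- a root of a unit -/
lemma p_kum_unit {E : ℕ} (hE : 0 < E) {B : Type} [CommRing B] [Algebra k B]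
    [Algebra.FiniteType k B] {e : B} (he : IsUnit e) (h : P (aff k (Kum E e))) :
    P (aff k B) := by
  have h1 := of_kum hP hE e h
  have h2 : Nonempty (Localization.Away e ≃ₐ[k] B) :=
    ⟨((IsLocalization.atUnit B (Localization.Away e) e he).restrictScalars k).symm⟩
  have := away_ft (k := k) e
  exact iso' hP h2 h1

/-- roots of units -/
theorem p_kums {E : ℕ} (hE : 0 < E) (σ : Type) [Finite σ] : ∀ (B : Type) [CommRing B]
    [Algebra k B] [Algebra.FiniteType k B] (e : σ → B), (∀ j, IsUnit (e j)) →
    (∀ (D : Type) [CommRing D] [Algebra k D] [Algebra.FiniteType k D] (ι : B →ₐ[k] D) (z : σ → D),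
      IsRt E e ι z → P (aff k D)) → P (aff k B) := by
  refine Finite.induction_empty_option (P := fun σ : Type => ∀ (B : Type) [CommRing B]
    [Algebra k B] [Algebra.FiniteType k B] (e : σ → B), (∀ j, IsUnit (e j)) →
    (∀ (D : Type) [CommRing D] [Algebra k D] [Algebra.FiniteType k D] (ι : B →ₐ[k] D) (z : σ → D),
      IsRt E e ι z → P (aff k D)) → P (aff k B)) ?_ ?_ ?_ σ
  · intro α β v h B _ _ _ e he H
    refine h B (fun a => e (v a)) (fun a => he (v a)) fun D _ _ _ ι z hz => ?_
    refine H D ι (fun b => z (v.symm b)) ?_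
    exact
    { rel := fun j => by rw [hz.rel, v.apply_symm_apply]
      lift := fun F _ _ φ y hy => by
        obtain ⟨h1, h2, h3⟩ := hz.lift F φ (fun a => y (v a)) (fun a => hy (v a))
        exact ⟨h1, h2, fun j => by rw [h3, v.apply_symm_apply]⟩
      ext := fun F _ _ h1 h2 h3 h4 => hz.ext F h1 h2 h3 fun a => by
        have h5 := h4 (v a)
        rwa [v.symm_apply_apply] at h5 }
  · intro B _ _ _ e _ H
    refine H B (AlgHom.id k B) (fun j => j.elim) ?_
    exact
    { rel := fun j => j.elim
      lift := fun F _ _ φ y _ => ⟨φ, AlgHom.comp_id φ, fun j => j.elim⟩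
      ext := fun F _ _ h1 h2 h3 _ => by rwa [AlgHom.comp_id, AlgHom.comp_id] at h3 }
  · intro α _ ih B _ _ _ e he H
    have := kum_ft (k := k) hE (e none)
    refine p_kum_unit hP hE (he none) (ih (Kum E (e none)) (fun j => kc k E (e none) (e (some j)))
      (fun j => (he (some j)).map _) fun D _ _ _ ι z hz => ?_)
    refine H D (ι.comp (kc k E (e none))) (fun j => j.elim (ι (kr E (e none))) z) ?_
    exact
    { rel := fun j => by
        rcases j with _ | j
        · change ι (kr E (e none)) ^ E = ι (kc k E (e none) (e none))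
          rw [← map_pow, kr_pow (k := k)]
        · exact hz.rel j
      lift := fun F _ _ φ y hy => by
        have hu : IsUnit (φ (e none)) := (he none).map _
        obtain ⟨h1, h2, h3⟩ := hz.lift F (kLift φ (y none) (hy none) hu) (fun j => y (some j))
          (fun j => by rw [kLift_kc]; exact hy (some j))
        have h4 : ∀ x, h1 (ι x) = kLift φ (y none) (hy none) hu x := fun x =>
          DFunLike.congr_fun h2 x
        refine ⟨h1, ?_, fun j => ?_⟩
        · apply AlgHom.ext
          intro x
          change h1 (ι (kc k E (e none) x)) = φ x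
          rw [h4, kLift_kc]
        · rcases j with _ | j
          · change h1 (ι (kr E (e none))) = y none
            rw [h4, kLift_kr]
          · exact h3 j
      ext := fun F _ _ h1 h2 h3 h4 => hz.ext F h1 h2 (kum_ext
        (fun x => DFunLike.congr_fun h3 x) (h4 none)) fun j => h4 (some j) }

end cover

end Pool.Agent.V5helper52.PT
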