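import Pool.Agent.V5helper52.FW.Few

/-!
# Systems of equations with independent exponents: definitions and jobs

`k` is a field, `E > 0`. For a matrix `M : κ → σ → k` we study the system of equations
`∑_j M i j * X_j ^ E = 0`, `i ∈ κ`, in the affine space and in the torus. `IsQ I w q` (file `FW/Q.lean`) says
that `q : A → D` is the localization of `A / I` at `w`, by its universal property.

Every job is independent of the others. Conventions: file `Pool/Agent/V5<seat>/PT/<JOB>.lean`,
`theorem t_<JOB> : Pool.Agent.V5helper52.PT.S_<JOB>`.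
-/

set_option autoImplicit false

open CategoryTheory AlgebraicGeometry MvPolynomial Pool.Agent.Y116.UV Pool.Agent.V5helper52.SF
  Pool.Agent.V5helper52.TR Pool.Agent.V5helper52.FW

namespace Pool.Agent.V5helper52.PT

/-- `P` is monic of degree `n` (this makes sense also over the zero ring). -/
def IsMon {R : Type} [CommRing R] (n : ℕ) (P : Polynomial R) : Prop :=
  P.coeff n = 1 ∧ ∀ i, n < i → P.coeff i = 0

/-- The `k`-algebra `D` represents the functor: a polynomial `P`, monic of degree `n`, and units `w j`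
with `w j ^ E = g j * P (q j)`. -/
structure IsS {k : Type} [Field k] (E : ℕ) {σ : Type} (q g : σ → k) (n : ℕ) {D : Type} [CommRing D]
    [Algebra k D] (P : Polynomial D) (w : σ → D) : Prop where
  mon : IsMon n P
  rel : ∀ j, w j ^ E = algebraMap k D (g j) * P.eval (algebraMap k D (q j))
  unit : ∀ j, IsUnit (w j)
  lift : ∀ (F : Type) [CommRing F] [Algebra k F] (P' : Polynomial F) (w' : σ → F), IsMon n P' →
    (∀ j, w' j ^ E = algebraMap k F (g j) * P'.eval (algebraMap k F (q j))) →
    (∀ j, IsUnit (w' j)) →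
    ∃ h : D →ₐ[k] F, P.map (h : D →+* F) = P' ∧ ∀ j, h (w j) = w' j
  ext : ∀ (F : Type) [CommRing F] [Algebra k F] (h h' : D →ₐ[k] F),
    P.map (h : D →+* F) = P.map (h' : D →+* F) → (∀ j, h (w j) = h' (w j)) → h = h'

/-- The ideal of the homogeneous system. -/
noncomputable def sysI {k : Type} [Field k] (E : ℕ) {σ κ : Type} [Fintype σ] (M : κ → σ → k) :
    Ideal (MvPolynomial σ k) :=
  Ideal.span (Set.range fun i => Ferm E σ (M i))

/-- The ideal of the system with constants `c i`. -/
noncomputable def sysC {k : Type} [Field k] (E : ℕ) {σ κ : Type} [Fintype σ] (c : κ → k)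
    (M : κ → σ → k) : Ideal (MvPolynomial σ k) :=
  Ideal.span (Set.range fun i => C (c i) + Ferm E σ (M i))

/-- JOB EXS (120 lines). Existence of the algebra of `IsS`, and its dimension.
Proof. Let `A₀ = k[c_i (i : Fin n), w_j (j : σ)] = MvPolynomial (Fin n ⊕ σ) k`, let
`I = (w_j ^ E - g_j * (q_j ^ n + ∑ c_i q_j ^ i))`, and `D = Localization.Away (mk I (∏ w_j))`,
`P = X ^ n + ∑ C (c_i) X ^ i` over `D`. The universal property: a homomorphism from `A₀` is a tuple
(`aeval`); use `isQ_qmap`. The coefficients of `P.map h` determine the `h (c_i)`. Dimension: `A₀ / I` is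
integral over `k[c_i]` (the `w_j` are roots of monic polynomials; the integral elements form a subalgebra),
so `dim ≤ n` by `dim_integral` (SF/Main), `MvPolynomial.ringKrullDim_of_isNoetherianRing`, and
`dim_away` (`Pool.Agent.Z125.UN.dim_away`) for the localization. -/
def S_EXS : Prop := ∀ (k : Type) [Field k] (E : ℕ) (_ : 0 < E) (σ : Type) [Finite σ] (q g : σ → k)
  (n : ℕ), ∃ (D : Type) (_ : CommRing D) (_ : Algebra k D) (P : Polynomial D) (w : σ → D),
    IsS E q g n P w ∧ Algebra.FiniteType k D ∧ ringKrullDim D ≤ n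

/-- JOB LAG (150 lines). Lagrange interpolation: `∑ A_j u_j ^ E = 0`, `∑ A_j q_j u_j ^ E = 1`, `u_j` units,
is the same as a monic polynomial `P` of degree `n = |σ| - 2` and units `u_j` with
`u_j ^ E = γ_j A_j⁻¹ P(q_j)`, where `γ_j = ∏_{l ≠ j} (q_j - q_l)⁻¹`.
Proof. Key identity in `k[X]`, for `i < |σ|`: (★) `X ^ i = ∑_j C (γ_j q_j ^ i) ∏_{l ≠ j} (X - C q_l)` (both sides
have degree `< |σ|` and agree at all `q_j`; `Polynomial.eq_of_degree_lt_...`, or Mathlib's
`Lagrange.eq_interpolate`). Mapping to a `k`-algebra `F` and taking linear combinations: for every `P` over `F`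
with `P.coeff i = 0` for `i ≥ |σ|`: (★★) `P = ∑_j C (γ_j P(q_j)) ∏_{l ≠ j} (X - C q_l)`. The coefficient of
`X ^ (|σ| - 1)` gives `∑ γ_j P(q_j) = P.coeff (|σ| - 1)`.
`zero`: apply this to `P` and `X * P`. `unit`: clear. `lift`: for `u : σ → F` put
`P' = ∑_j C (A_j u_j ^ E) ∏_{l ≠ j} (X - C q_l)`; its coefficient at `|σ| - 1` is `∑ A_j u_j ^ E = 0`, at `|σ| - 2` it is
`- ∑_j A_j u_j ^ E (∑_{l ≠ j} q_l) = - (∑_l q_l) * 0 + ∑_j A_j q_j u_j ^ E = 1`, the others above vanish, and
`P'(q_j) = A_j u_j ^ E ∏_{l ≠ j} (q_j - q_l)`. `ext`: `P.map h` is determined by its values at the `q_j`, by (★★),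
and these are determined by the `h (w j)`. -/
def S_LAG : Prop := ∀ (k : Type) [Field k] (E : ℕ) (_ : 0 < E) (σ : Type) [Fintype σ] [DecidableEq σ]
  (A q : σ → k) (_ : ∀ j, A j ≠ 0) (_ : Function.Injective q) (n : ℕ) (_ : Fintype.card σ = n + 2)
  (D : Type) [CommRing D] [Algebra k D] (P : Polynomial D) (w : σ → D)
  (_ : IsS E q (fun j => (∏ l ∈ Finset.univ.erase j, (q j - q l))⁻¹ * (A j)⁻¹) n P w),
  IsQ (Ideal.span {Ferm E σ A, Ferm E σ (fun j => A j * q j) - 1}) (∏ j, X j)
    (aeval w : MvPolynomial σ k →ₐ[k] D)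

/-- JOB MERGE (200 lines). If the columns `none` and `some none` of the matrix are proportional, the
corresponding variables can be replaced by one variable.
Proof. Let `B = MvPolynomial (Option τ) k ⧸ (∑_{t : τ} M i (some (some t)) X_(some t) ^ E + M i (some none) X_none)`
(so `Y = X_none` occurs linearly) and `h = lam X_false ^ E + X_true ^ E ∈ MvPolynomial Bool k`,
homogeneous of degree `E`. Then `Fib (one h) B Y` (SF/Alg.lean: `MvPolynomial Bool B ⧸ (h - Y)`) is
isomorphic to the algebra of the system for `M`: check the universal property `IsQ (sysI E M) 1` of the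
map with `X_none ↦ fv false`, `X_(some none) ↦ fv true`, `X_(some (some t)) ↦ fc (X_(some t))`, and use
`isQ_one`, `st_of`, `st_to` (FW/Q.lean, FW/TFerm.lean). By `fib_step` (SF/Cls.lean) it suffices:
the fibre `h = 1` has `P` (dimension at most one: `hP.curve`), `P (B ⧸ (Y))` and `P (Kum E Y)`.
`B ⧸ (Y)` is the algebra of the system for the columns `some (some t)` (again `IsQ .. 1`). `Kum E Y` has the
universal property `IsQ (sysI E (fun i j => M i (some j))) (X none)` (map `X_none ↦ kr`,
`X_(some t) ↦ kc (X_(some t))`, with `kLift`, `kum_ext`), so `st_open` gives `P`, from the hypotheses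
for `MvPolynomial (Option τ) k` and for `τ` (`isQ_sub` in FW/TFerm.lean, or directly `IsQ`). -/
def S_MERGE : Prop := ∀ (k : Type) [Field k] (P : Sch k → Prop) (_ : Cls True P) (E : ℕ) (_ : 0 < E)
  (κ τ : Type) [Fintype τ] (M : κ → Option (Option τ) → k) (lam : k)
  (_ : ∀ i, M i none = lam * M i (some none))
  (_ : P (aff k (MvPolynomial (Option τ) k ⧸ sysI E (fun i j => M i (some j)))))
  (_ : P (aff k (MvPolynomial τ k ⧸ sysI E (fun i t => M i (some (some t)))))),
  P (aff k (MvPolynomial (Option (Option τ)) k ⧸ sysI E M))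

/-- JOB CONE (80 lines). In the torus the homogeneous system is the product of `𝔾_m` and of the system
with `X_none = 1`.
Proof. `D` represents the solutions `v : σ → F` in units of the system with constants `M i none`;
`D[T;T⁻¹]` those `u : Option σ → F` of the homogeneous system: `u_none = T`, `u_(some j) = T v_j`. Homomorphisms
from `D[T;T⁻¹]` are pairs (homomorphism from `D`, unit): `LaurentPolynomial` is
`AddMonoidAlgebra D ℤ`; or use `LaurentPolynomial.eval₂`, or `IsLocalization.Away X`. -/
def S_CONE : Prop := ∀ (k : Type) [Field k] (E : ℕ) (_ : 0 < E) (κ σ : Type) [Fintype σ]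
  (M : κ → Option σ → k) (D : Type) [CommRing D] [Algebra k D] (q : MvPolynomial σ k →ₐ[k] D)
  (_ : IsQ (sysC E (fun i => M i none) (fun i j => M i (some j))) (∏ j, X j) q),
  IsQ (sysI E M) (∏ j, X j) (aeval fun j : Option σ => j.elim (LaurentPolynomial.T 1 :
    LaurentPolynomial D) fun j => LaurentPolynomial.T 1 * LaurentPolynomial.C (q (X j)))

/-- JOB RED (40 lines): `p_red` (FW/Red.lean) for several Laurent polynomials. Same proof. -/
def S_RED : Prop := ∀ (k : Type) [Field k] (P : Sch k → Prop) (_ : Cls True P) (T : Type) [Fintype T]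
  [DecidableEq T] (ρ : ℕ) (v : Fin ρ → (T → ℤ)) (_ : LinearIndependent ℚ fun i => qv (v i)),
    ∃ (E : ℕ) (j : (T → ℤ) →+ (Fin ρ → ℤ)), 0 < E ∧ (∀ i, j (v i) = E • Pi.single i 1) ∧
      ∀ (κ : Type) (f : κ → AddMonoidAlgebra k (T → ℤ)), (∀ l, ∀ m ∈ (f l).coeff.support,
        qv m ∈ Submodule.span ℚ (Set.range fun i => qv (v i))) →
        P (aff k (AddMonoidAlgebra k (Fin ρ → ℤ) ⧸ Ideal.span (Set.range fun l => md k j (f l)))) →
        P (aff k (AddMonoidAlgebra k (T → ℤ) ⧸ Ideal.span (Set.range f)))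

end Pool.Agent.V5helper52.PT
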