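import Pool.Agent.V5helper52.PT.Gen

/-!
# Two equations in the torus
-/

set_option autoImplicit false
set_option maxHeartbeats 400000

open CategoryTheory AlgebraicGeometry MvPolynomial Pool.Agent.Y116.UV Pool.Agent.V5helper52.SF
  Pool.Agent.V5helper52.TR Pool.Agent.V5helper52.FW Pool.Agent.Z125.UN

namespace Pool.Agent.V5helper52.PT

variable {k : Type} [Field k] {σ : Type} [Fintype σ] [DecidableEq σ]

/-- restriction to the torus -/
noncomputable def tt (k : Type) [Field k] (σ : Type) [DecidableEq σ] :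
    MvPolynomial σ k →ₐ[k] AddMonoidAlgebra k (σ → ℤ) := aeval fun i => tv k i

lemma tt_X (i : σ) : tt k σ (X i) = tv k i := aeval_X _ _

theorem isQ_tor (I : Ideal (MvPolynomial σ k)) :
    IsQ I (∏ j, X j) ((Ideal.Quotient.mkₐ k (I.map (tt k σ))).comp (tt k σ)) where
  zero a ha := by
    change Ideal.Quotient.mk (I.map (tt k σ)) (tt k σ a) = 0
    exact Ideal.Quotient.eq_zero_iff_mem.mpr (Ideal.mem_map_of_mem _ ha)
  unit := by
    rw [AlgHom.comp_apply, map_prod]
    refine IsUnit.map _ ?_
    rw [IsUnit.prod_iff]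
    intro i _
    rw [tt, aeval_X]
    exact tv_unit _
  lift F _ _ g hg hu := by
    rw [map_prod] at hu
    have hu' : ∀ i, IsUnit (g (X i)) := fun i =>
      isUnit_of_dvd_unit (Finset.dvd_prod_of_mem (fun i => g (X i)) (Finset.mem_univ i)) hu
    obtain ⟨f, hf⟩ := tor_lift (R := k) (T := σ) (fun i => g (X i)) hu'
    have hfg : f.comp (tt k σ) = g := by
      apply MvPolynomial.algHom_ext
      intro i
      rw [AlgHom.comp_apply, tt, aeval_X, hf]
    refine ⟨Ideal.Quotient.liftₐ _ f fun a ha => ?_, ?_⟩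
    · have h1 : I.map (tt k σ) ≤ RingHom.ker f := by
        rw [Ideal.map_le_iff_le_comap]
        intro b hb
        change f (tt k σ b) = 0
        rw [← AlgHom.comp_apply, hfg]
        exact hg b hb
      exact h1 ha
    · exact (show _ = f.comp (tt k σ) from rfl).trans hfg
  ext F _ _ h h' e := by
    apply Ideal.Quotient.algHom_ext
    apply tor_ext
    intro i
    have h1 : h (Ideal.Quotient.mk (I.map (tt k σ)) (tt k σ (X i))) =
        h' (Ideal.Quotient.mk (I.map (tt k σ)) (tt k σ (X i))) := DFunLike.congr_fun e (X i)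
    rw [tt_X] at h1
    exact h1

lemma tt_C (a : k) : tt k σ (C a) = AddMonoidAlgebra.single 0 a := by
  rw [← algebraMap_eq, AlgHom.commutes]
  rfl

lemma tt_ferm (E : ℕ) (c : σ → k) : tt k σ (Ferm E σ c) =
    ∑ i, AddMonoidAlgebra.single (E • Pi.single i 1 : σ → ℤ) (c i) := by
  rw [Ferm, map_sum]
  refine Finset.sum_congr rfl fun i _ => ?_
  rw [map_mul, map_pow, tt_C, tt, aeval_X, tv, AddMonoidAlgebra.single_pow, one_pow,
    AddMonoidAlgebra.single_mul_single, zero_add, mul_one]

variable {P : Sch k → Prop} (hP : Cls True P)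

include hP

/-- **Two equations in the torus.** -/
theorem p_tpair (exs : S_EXS) (lag : S_LAG) (cone : S_CONE) (merge : S_MERGE) {E : ℕ} (hE : 0 < E)
    (M : Bool → Option σ → k) :
    P (aff k (AddMonoidAlgebra k (σ → ℤ) ⧸ Ideal.span (Set.range fun i =>
      AddMonoidAlgebra.single 0 (M i none) +
        ∑ j, AddMonoidAlgebra.single (E • Pi.single j 1 : σ → ℤ) (M i (some j))))) := by
  have hL := loc_of_bnd hP.toBnd
  let I : Ideal (MvPolynomial σ k) := sysC E (fun i => M i none) fun i j => M i (some j)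
  have h1 := isQ_tor I
  have h2 := cone k E hE Bool σ M _ _ h1
  have h3 : St P (sysI E M) (∏ j, X j) :=
    st_open_stratum hE M hL fun T => p_hom2 hP exs lag cone merge hE _ _ rfl _
  have hft : Algebra.FiniteType k (AddMonoidAlgebra k (σ → ℤ) ⧸ I.map (tt k σ)) := inferInstance
  have h4 := hP.torus _ (st_to hL h2 h3)
  have h5 : I.map (tt k σ) = Ideal.span (Set.range fun i =>
      AddMonoidAlgebra.single 0 (M i none) +
        ∑ j, AddMonoidAlgebra.single (E • Pi.single j 1 : σ → ℤ) (M i (some j))) := by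
    change (sysC E (fun i => M i none) fun i j => M i (some j)).map (tt k σ) = _
    rw [sysC, Ideal.map_span, ← Set.range_comp]
    congr 2
    funext i
    change tt k σ (C (M i none) + Ferm E σ fun j => M i (some j)) = _
    rw [map_add, tt_C, tt_ferm]
  rw [← h5]
  exact h4

end Pool.Agent.V5helper52.PT
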